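import Pool.Agent.Q109.LD.Stm

set_option autoImplicit false

/-! Project LD, JOB FAM3 (helper25) -/

namespace Pool.Agent.Q25.LD

open Q109.LD Real

/-- the normals -/
noncomputable def a3 (m : ℕ) (i : ℕ) : E 3 :=
  if i < 2 * m then EuclideanSpace.single 0 (cos ((2 * i + 1) * π / (2 * m))) +
    EuclideanSpace.single 1 (sin ((2 * i + 1) * π / (2 * m)))
  else if i = 2 * m then EuclideanSpace.single 2 (1 : ℝ) else EuclideanSpace.single 2 (-1 : ℝ)

/-- the right hand sides -/
noncomputable def b3 (m : ℕ) (i : ℕ) : ℝ := if i < 2 * m then cos (π / (2 * m)) else 1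

/-- the points -/
noncomputable def w3 (m : ℕ) (j : ℕ) (η : ℝ) : E 3 :=
  EuclideanSpace.single 0 (cos (j * π / m)) + EuclideanSpace.single 1 (sin (j * π / m)) +
    EuclideanSpace.single 2 η

lemma w3_0 (m j : ℕ) (η : ℝ) : w3 m j η 0 = cos (j * π / m) := by
  simp [w3]

lemma w3_1 (m j : ℕ) (η : ℝ) : w3 m j η 1 = sin (j * π / m) := by
  simp [w3]

lemma w3_2 (m j : ℕ) (η : ℝ) : w3 m j η 2 = η := by
  simp [w3]

lemma norm3 (x : E 3) : ‖x‖ ^ 2 = x 0 ^ 2 + x 1 ^ 2 + x 2 ^ 2 := by
  rw [EuclideanSpace.norm_sq_eq, Fin.sum_univ_three]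
  simp [Real.norm_eq_abs, sq_abs]

lemma mem_poly3 (m : ℕ) (x : E 3) :
    x ∈ poly (fun i : Fin (2 * m + 2) => a3 m i) (fun i => b3 m i) ↔
      (∀ k : ℕ, k < 2 * m → cos ((2 * k + 1) * π / (2 * m)) * x 0 +
        sin ((2 * k + 1) * π / (2 * m)) * x 1 ≤ cos (π / (2 * m))) ∧ x 2 ≤ 1 ∧ -x 2 ≤ 1 := by
  constructor
  · intro h
    refine ⟨fun k hk => ?_, ?_, ?_⟩
    · have := h ⟨k, by omega⟩
      simp only [a3, b3, hk, if_true] at this
      rw [inner_add_left, EuclideanSpace.inner_single_left, EuclideanSpace.inner_single_left] at this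
      simpa using this
    · have := h ⟨2 * m, by omega⟩
      simp only [a3, b3, lt_irrefl, if_false, if_true] at this
      rw [EuclideanSpace.inner_single_left] at this
      simpa using this
    · have := h ⟨2 * m + 1, by omega⟩
      simp only [a3, b3, show ¬ (2 * m + 1 < 2 * m) by omega, show ¬ (2 * m + 1 = 2 * m) by omega,
        if_false] at this
      rw [EuclideanSpace.inner_single_left] at this
      simpa using this
  · rintro ⟨h1, h2, h3⟩ i
    by_cases hi : (i : ℕ) < 2 * m
    · simp only [a3, b3, hi, if_true]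
      rw [inner_add_left, EuclideanSpace.inner_single_left, EuclideanSpace.inner_single_left]
      simpa using h1 i hi
    · by_cases hi2 : (i : ℕ) = 2 * m
      · simp only [a3, b3, hi2, lt_irrefl, if_false, if_true]
        rw [EuclideanSpace.inner_single_left]
        simpa using h2
      · simp only [a3, b3, hi, hi2, if_false]
        rw [EuclideanSpace.inner_single_left]
        simpa using h3

theorem fam3 : S_GON → S_FAM3 := by
  classical
  intro hG m hm
  obtain ⟨g1, g2, g3, g4, g5⟩ := hG m hm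
  let W : Finset (E 3) := (Finset.range (2 * m) ×ˢ ({1, -1} : Finset ℝ)).image
    (fun y => w3 m y.1 y.2)
  have hW : ∀ w, w ∈ W ↔ ∃ j < 2 * m, ∃ η : ℝ, (η = 1 ∨ η = -1) ∧ w = w3 m j η := by
    intro w
    simp only [W, Finset.mem_image, Finset.mem_product, Finset.mem_range, Finset.mem_insert,
      Finset.mem_singleton, Prod.exists]
    constructor
    · rintro ⟨j, η, ⟨h1, h2⟩, rfl⟩; exact ⟨j, h1, η, h2, rfl⟩
    · rintro ⟨j, h1, η, h2, rfl⟩; exact ⟨j, η, ⟨h1, h2⟩, rfl⟩
  refine ⟨fun i => a3 m i, fun i => b3 m i, W, ?_, ?_⟩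
  · rw [Finset.card_image_of_injOn, Finset.card_product, Finset.card_range,
      Finset.card_pair (by norm_num)]
    · ring
    · rintro ⟨j, η⟩ hj ⟨k, η'⟩ hk h
      simp only [Finset.coe_product, Set.mem_prod, Finset.mem_coe, Finset.mem_range] at hj hk
      simp only at h
      have e0 := congrFun (congrArg (fun v : E 3 => (v : Fin 3 → ℝ)) h) 0
      have e1 := congrFun (congrArg (fun v : E 3 => (v : Fin 3 → ℝ)) h) 1
      have e2 := congrFun (congrArg (fun v : E 3 => (v : Fin 3 → ℝ)) h) 2
      simp only [w3_0, w3_1, w3_2] at e0 e1 e2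
      rw [g4 j k hj.1 hk.1 e0 e1, e2]
  · constructor
    · norm_num
    · intro i
      simp only [b3]
      split_ifs
      · exact g1
      · norm_num
    · have hs : ∀ x : E 3, x ∈ poly (fun i : Fin (2 * m + 2) => a3 m i) (fun i => b3 m i) →
          -x ∈ poly (fun i : Fin (2 * m + 2) => a3 m i) (fun i => b3 m i) := by
        intro x hx
        rw [mem_poly3] at hx ⊢
        refine ⟨fun k hk => ?_, ?_, ?_⟩
        · obtain ⟨l, hl, e1, e2, _, _⟩ := g5 k hk
          have := hx.1 l hl
          rw [e1, e2] at this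
          simp only [PiLp.neg_apply]
          linarith
        · simp only [PiLp.neg_apply]; exact hx.2.2
        · simp only [PiLp.neg_apply, neg_neg]; exact hx.2.1
      intro x
      refine ⟨hs x, fun h => ?_⟩
      have := hs _ h
      rwa [neg_neg] at this
    · intro w hw
      obtain ⟨j, hj, η, hη, rfl⟩ := (hW w).1 hw
      obtain ⟨l, hl, _, _, e3, e4⟩ := g5 j hj
      refine (hW _).2 ⟨l, hl, -η, ?_, ?_⟩
      · rcases hη with rfl | rfl
        · right; rfl
        · left; norm_num
      · ext i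
        fin_cases i
        · simp only [Fin.zero_eta, PiLp.neg_apply, w3_0, e3]
        · simp only [Fin.mk_one, PiLp.neg_apply, w3_1, e4]
        · simp only [Fin.reduceFinMk, PiLp.neg_apply, w3_2]
    · intro w hw
      obtain ⟨j, hj, η, hη, rfl⟩ := (hW w).1 hw
      rw [mem_poly3]
      simp only [w3_0, w3_1, w3_2]
      refine ⟨fun k _ => g2 j k, ?_, ?_⟩ <;> rcases hη with rfl | rfl <;> norm_num
    · intro w hw
      obtain ⟨j, hj, η, hη, rfl⟩ := (hW w).1 hw
      rw [norm3, w3_0, w3_1, w3_2]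
      have := cos_sq_add_sin_sq (j * π / m)
      rcases hη with rfl | rfl <;> nlinarith
    · intro x hx
      rw [mem_poly3] at hx
      have h1 := g3 (x 0) (x 1) hx.1
      rw [norm3]
      nlinarith [hx.2.1, hx.2.2]

end Pool.Agent.Q25.LD
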