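import Pool.Agent.Q109.LD.Stm

set_option autoImplicit false

/-! Project LD, JOB FAM4 (helper25) -/

namespace Pool.Agent.Q25.LD

open Q109.LD Real

/-- the normals -/
noncomputable def a4 (e m : ℕ) (i : ℕ) : E (e + 4) :=
  if i < 2 * m then EuclideanSpace.single 0 (cos ((2 * i + 1) * π / (2 * m))) +
    EuclideanSpace.single 1 (sin ((2 * i + 1) * π / (2 * m)))
  else if i < 4 * m then
    EuclideanSpace.single 2 (cos ((2 * (i - 2 * m : ℕ) + 1) * π / (2 * m))) +
      EuclideanSpace.single 3 (sin ((2 * (i - 2 * m : ℕ) + 1) * π / (2 * m)))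
  else if i < 4 * m + e then EuclideanSpace.single (Fin.ofNat (e + 4) (i - 4 * m + 4)) (1 : ℝ)
  else EuclideanSpace.single (Fin.ofNat (e + 4) (i - 4 * m - e + 4)) (-1 : ℝ)

/-- the right hand sides -/
noncomputable def b4 (m : ℕ) (i : ℕ) : ℝ := if i < 4 * m then cos (π / (2 * m)) else 1

/-- the points -/
noncomputable def w4 (e m : ℕ) (j k : ℕ) (η : ℝ) : E (e + 4) :=
  WithLp.toLp 2 (fun i : Fin (e + 4) => if (i : ℕ) = 0 then cos (j * π / m) else
    if (i : ℕ) = 1 then sin (j * π / m) else if (i : ℕ) = 2 then cos (k * π / m) else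
    if (i : ℕ) = 3 then sin (k * π / m) else η)

lemma w4_0 (e m j k : ℕ) (η : ℝ) : w4 e m j k η 0 = cos (j * π / m) := by
  simp [w4]

lemma v1 (e : ℕ) : ((1 : Fin (e + 4)) : ℕ) = 1 := rfl
lemma v2 (e : ℕ) : ((2 : Fin (e + 4)) : ℕ) = 2 := by
  rw [show (2 : Fin (e + 4)) = Fin.ofNat (e + 4) 2 from rfl, Fin.val_ofNat]
  exact Nat.mod_eq_of_lt (by omega)
lemma v3 (e : ℕ) : ((3 : Fin (e + 4)) : ℕ) = 3 := by
  rw [show (3 : Fin (e + 4)) = Fin.ofNat (e + 4) 3 from rfl, Fin.val_ofNat]
  exact Nat.mod_eq_of_lt (by omega)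

lemma w4_1 (e m j k : ℕ) (η : ℝ) : w4 e m j k η 1 = sin (j * π / m) := by
  simp [w4, v1]

lemma w4_2 (e m j k : ℕ) (η : ℝ) : w4 e m j k η 2 = cos (k * π / m) := by
  simp only [w4, v2]
  norm_num

lemma w4_3 (e m j k : ℕ) (η : ℝ) : w4 e m j k η 3 = sin (k * π / m) := by
  simp only [w4, v3]
  norm_num

lemma w4_4 (e m j k : ℕ) (η : ℝ) (i : Fin (e + 4)) (hi : 4 ≤ (i : ℕ)) : w4 e m j k η i = η := by
  simp only [w4]
  rw [if_neg (by omega), if_neg (by omega), if_neg (by omega), if_neg (by omega)]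

lemma sum4 (e : ℕ) (f : Fin (e + 4) → ℝ) : ∑ i, f i = f 0 + f 1 + f 2 + f 3 +
    ∑ i : Fin e, f i.succ.succ.succ.succ := by
  rw [Fin.sum_univ_succ, Fin.sum_univ_succ, Fin.sum_univ_succ, Fin.sum_univ_succ]
  have h1 : (0 : Fin (e + 3)).succ = (1 : Fin (e + 4)) := rfl
  have h2 : (0 : Fin (e + 2)).succ.succ = (2 : Fin (e + 4)) := by
    apply Fin.ext; rw [v2]; rfl
  have h3 : (0 : Fin (e + 1)).succ.succ.succ = (3 : Fin (e + 4)) := by
    apply Fin.ext; rw [v3]; rfl
  rw [h1, h2, h3]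
  ring

lemma norm4 (e : ℕ) (x : E (e + 4)) : ‖x‖ ^ 2 = x 0 ^ 2 + x 1 ^ 2 + x 2 ^ 2 + x 3 ^ 2 +
    ∑ i : Fin e, x i.succ.succ.succ.succ ^ 2 := by
  rw [EuclideanSpace.norm_sq_eq, sum4]
  simp [Real.norm_eq_abs, sq_abs]

lemma mem_poly4 (e m N : ℕ) (hN : N = 4 * m + 2 * e) (x : E (e + 4)) :
    x ∈ poly (fun i : Fin N => a4 e m i) (fun i => b4 m i) ↔
      (∀ k : ℕ, k < 2 * m → cos ((2 * k + 1) * π / (2 * m)) * x 0 +
        sin ((2 * k + 1) * π / (2 * m)) * x 1 ≤ cos (π / (2 * m))) ∧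
      (∀ k : ℕ, k < 2 * m → cos ((2 * k + 1) * π / (2 * m)) * x 2 +
        sin ((2 * k + 1) * π / (2 * m)) * x 3 ≤ cos (π / (2 * m))) ∧
      ∀ i : Fin (e + 4), 4 ≤ (i : ℕ) → x i ≤ 1 ∧ -x i ≤ 1 := by
  constructor
  · intro h
    refine ⟨fun k hk => ?_, fun k hk => ?_, fun i hi => ⟨?_, ?_⟩⟩
    · have := h ⟨k, by omega⟩
      simp only [a4, b4, hk, if_true, show k < 4 * m by omega] at this
      rw [inner_add_left, EuclideanSpace.inner_single_left, EuclideanSpace.inner_single_left] at this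
      simpa using this
    · have := h ⟨2 * m + k, by omega⟩
      simp only [a4, b4, show ¬ (2 * m + k < 2 * m) by omega, show 2 * m + k < 4 * m by omega,
        if_true, if_false, Nat.add_sub_cancel_left] at this
      rw [inner_add_left, EuclideanSpace.inner_single_left, EuclideanSpace.inner_single_left] at this
      simpa using this
    · have := h ⟨4 * m + (i - 4), by omega⟩
      simp only [a4, b4, show ¬ (4 * m + ((i : ℕ) - 4) < 2 * m) by omega,
        show ¬ (4 * m + ((i : ℕ) - 4) < 4 * m) by omega,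
        show 4 * m + ((i : ℕ) - 4) < 4 * m + e by omega, if_true, if_false] at this
      rw [EuclideanSpace.inner_single_left] at this
      have hi2 : Fin.ofNat (e + 4) (4 * m + ((i : ℕ) - 4) - 4 * m + 4) = i := by
        apply Fin.ext
        rw [Fin.val_ofNat, show 4 * m + ((i : ℕ) - 4) - 4 * m + 4 = i by omega]
        exact Nat.mod_eq_of_lt i.2
      rw [hi2] at this
      simpa using this
    · have := h ⟨4 * m + e + (i - 4), by omega⟩
      simp only [a4, b4, show ¬ (4 * m + e + ((i : ℕ) - 4) < 2 * m) by omega,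
        show ¬ (4 * m + e + ((i : ℕ) - 4) < 4 * m) by omega,
        show ¬ (4 * m + e + ((i : ℕ) - 4) < 4 * m + e) by omega, if_false] at this
      rw [EuclideanSpace.inner_single_left] at this
      have hi2 : Fin.ofNat (e + 4) (4 * m + e + ((i : ℕ) - 4) - 4 * m - e + 4) = i := by
        apply Fin.ext
        rw [Fin.val_ofNat, show 4 * m + e + ((i : ℕ) - 4) - 4 * m - e + 4 = i by omega]
        exact Nat.mod_eq_of_lt i.2
      rw [hi2] at this
      simpa using this
  · rintro ⟨h1, h2, h3⟩ i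
    have hiN := i.2
    by_cases hi : (i : ℕ) < 2 * m
    · simp only [a4, b4, hi, if_true, show (i : ℕ) < 4 * m by omega]
      rw [inner_add_left, EuclideanSpace.inner_single_left, EuclideanSpace.inner_single_left]
      simpa using h1 i hi
    · by_cases hi2 : (i : ℕ) < 4 * m
      · simp only [a4, b4, hi, hi2, if_false, if_true]
        rw [inner_add_left, EuclideanSpace.inner_single_left, EuclideanSpace.inner_single_left]
        simpa using h2 (i - 2 * m) (by omega)
      · by_cases hi3 : (i : ℕ) < 4 * m + e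
        · simp only [a4, b4, hi, hi2, hi3, if_false, if_true]
          rw [EuclideanSpace.inner_single_left]
          have := (h3 (Fin.ofNat (e + 4) ((i : ℕ) - 4 * m + 4)) (by
            rw [Fin.val_ofNat, Nat.mod_eq_of_lt (by omega)]; omega)).1
          simpa using this
        · simp only [a4, b4, hi, hi2, hi3, if_false]
          rw [EuclideanSpace.inner_single_left]
          have := (h3 (Fin.ofNat (e + 4) ((i : ℕ) - 4 * m - e + 4)) (by
            rw [Fin.val_ofNat, Nat.mod_eq_of_lt (by omega)]; omega)).2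
          simpa using this

theorem fam4 : S_GON → S_FAM4 := by
  classical
  intro hG d m hd hm
  obtain ⟨e, rfl⟩ : ∃ e, d = e + 4 := ⟨d - 4, by omega⟩
  obtain ⟨g1, g2, g3, g4, g5⟩ := hG m hm
  have hN : 4 * m + 2 * (e + 4 - 4) = 4 * m + 2 * e := by omega
  let W : Finset (E (e + 4)) :=
    (((Finset.range (2 * m)) ×ˢ (Finset.range (2 * m))) ×ˢ ({1, -1} : Finset ℝ)).image
    (fun y => w4 e m y.1.1 y.1.2 y.2)
  have hW : ∀ w, w ∈ W ↔ ∃ j < 2 * m, ∃ k < 2 * m, ∃ η : ℝ, (η = 1 ∨ η = -1) ∧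
      w = w4 e m j k η := by
    intro w
    simp only [W, Finset.mem_image, Finset.mem_product, Finset.mem_range, Finset.mem_insert,
      Finset.mem_singleton, Prod.exists]
    constructor
    · rintro ⟨j, k, η, ⟨⟨h1, h2⟩, h3⟩, rfl⟩; exact ⟨j, h1, k, h2, η, h3, rfl⟩
    · rintro ⟨j, h1, k, h2, η, h3, rfl⟩; exact ⟨j, k, η, ⟨⟨h1, h2⟩, h3⟩, rfl⟩
  refine ⟨fun i => a4 e m i, fun i => b4 m i, W, (e : ℝ) + 2, ?_, ?_⟩
  · have hsub : ((Finset.range (2 * m)) ×ˢ (Finset.range (2 * m))).image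
        (fun y => w4 e m y.1 y.2 1) ⊆ W := by
      intro w hw
      obtain ⟨⟨j, k⟩, hy, rfl⟩ := Finset.mem_image.1 hw
      obtain ⟨h1, h2⟩ := Finset.mem_product.1 hy
      exact (hW _).2 ⟨j, Finset.mem_range.1 h1, k, Finset.mem_range.1 h2, 1, Or.inl rfl, rfl⟩
    refine le_trans (le_of_eq ?_) (Finset.card_le_card hsub)
    rw [Finset.card_image_of_injOn, Finset.card_product, Finset.card_range]
    · ring
    · rintro ⟨j, k⟩ hj ⟨j', k'⟩ hk h
      simp only [Finset.coe_product, Set.mem_prod, Finset.mem_coe, Finset.mem_range] at hj hk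
      simp only at h
      have e0 := congrFun (congrArg (fun v : E (e + 4) => (v : Fin (e + 4) → ℝ)) h) 0
      have e1 := congrFun (congrArg (fun v : E (e + 4) => (v : Fin (e + 4) → ℝ)) h) 1
      have e2 := congrFun (congrArg (fun v : E (e + 4) => (v : Fin (e + 4) → ℝ)) h) 2
      have e3 := congrFun (congrArg (fun v : E (e + 4) => (v : Fin (e + 4) → ℝ)) h) 3
      simp only [w4_0, w4_1, w4_2, w4_3] at e0 e1 e2 e3
      rw [g4 j j' hj.1 hk.1 e0 e1, g4 k k' hj.2 hk.2 e2 e3]
  · constructor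
    · positivity
    · intro i
      simp only [b4]
      split_ifs
      · exact g1
      · norm_num
    · have hs : ∀ x : E (e + 4),
          x ∈ poly (fun i : Fin (4 * m + 2 * (e + 4 - 4)) => a4 e m i) (fun i => b4 m i) →
          -x ∈ poly (fun i : Fin (4 * m + 2 * (e + 4 - 4)) => a4 e m i) (fun i => b4 m i) := by
        intro x hx
        rw [mem_poly4 e m _ hN] at hx ⊢
        refine ⟨fun k hk => ?_, fun k hk => ?_, fun i hi => ⟨?_, ?_⟩⟩
        · obtain ⟨l, hl, e1, e2, _, _⟩ := g5 k hk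
          have := hx.1 l hl
          rw [e1, e2] at this
          simp only [PiLp.neg_apply]
          linarith
        · obtain ⟨l, hl, e1, e2, _, _⟩ := g5 k hk
          have := hx.2.1 l hl
          rw [e1, e2] at this
          simp only [PiLp.neg_apply]
          linarith
        · simp only [PiLp.neg_apply]; exact (hx.2.2 i hi).2
        · simp only [PiLp.neg_apply, neg_neg]; exact (hx.2.2 i hi).1
      intro x
      refine ⟨hs x, fun h => ?_⟩
      have := hs _ h
      rwa [neg_neg] at this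
    · intro w hw
      obtain ⟨j, hj, k, hk, η, hη, rfl⟩ := (hW w).1 hw
      obtain ⟨l, hl, _, _, e3, e4⟩ := g5 j hj
      obtain ⟨l', hl', _, _, e3', e4'⟩ := g5 k hk
      refine (hW _).2 ⟨l, hl, l', hl', -η, ?_, ?_⟩
      · rcases hη with rfl | rfl
        · right; rfl
        · left; norm_num
      · ext i
        simp only [PiLp.neg_apply]
        by_cases h0 : i = 0
        · subst h0; rw [w4_0, w4_0, e3]
        by_cases h1 : i = 1
        · subst h1; rw [w4_1, w4_1, e4]
        by_cases h2 : i = 2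
        · subst h2; rw [w4_2, w4_2, e3']
        by_cases h3 : i = 3
        · subst h3; rw [w4_3, w4_3, e4']
        have h4 : 4 ≤ (i : ℕ) := by
          have n0 : (i : ℕ) ≠ 0 := fun h => h0 (Fin.ext h)
          have n1 : (i : ℕ) ≠ 1 := fun h => h1 (Fin.ext h)
          have n2 : (i : ℕ) ≠ 2 := fun h => h2 (Fin.ext (h.trans (v2 e).symm))
          have n3 : (i : ℕ) ≠ 3 := fun h => h3 (Fin.ext (h.trans (v3 e).symm))
          omega
        rw [w4_4 _ _ _ _ _ _ h4, w4_4 _ _ _ _ _ _ h4]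
    · intro w hw
      obtain ⟨j, hj, k, hk, η, hη, rfl⟩ := (hW w).1 hw
      rw [mem_poly4 e m _ hN]
      simp only [w4_0, w4_1, w4_2, w4_3]
      refine ⟨fun k' _ => g2 j k', fun k' _ => g2 k k', fun i hi => ?_⟩
      rw [w4_4 _ _ _ _ _ _ hi]
      rcases hη with rfl | rfl <;> norm_num
    · intro w hw
      obtain ⟨j, hj, k, hk, η, hη, rfl⟩ := (hW w).1 hw
      rw [norm4, w4_0, w4_1, w4_2, w4_3]
      have h1 := cos_sq_add_sin_sq (j * π / m)
      have h2 := cos_sq_add_sin_sq (k * π / m)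
      have h3 : ∑ i : Fin e, w4 e m j k η i.succ.succ.succ.succ ^ 2 = e := by
        rw [Finset.sum_congr rfl (fun i _ => by
          rw [w4_4 _ _ _ _ _ _ (by simp)]), Finset.sum_const, Finset.card_univ, Fintype.card_fin,
          nsmul_eq_mul]
        rcases hη with rfl | rfl <;> norm_num
      rw [h3]
      linarith
    · intro x hx
      rw [mem_poly4 e m _ hN] at hx
      have h1 := g3 (x 0) (x 1) hx.1
      have h2 := g3 (x 2) (x 3) hx.2.1
      have h3 : ∑ i : Fin e, x i.succ.succ.succ.succ ^ 2 ≤ e := by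
        have : ∑ i : Fin e, x i.succ.succ.succ.succ ^ 2 ≤ ∑ _i : Fin e, (1 : ℝ) := by
          refine Finset.sum_le_sum fun i _ => ?_
          obtain ⟨h4, h5⟩ := hx.2.2 i.succ.succ.succ.succ (by simp)
          nlinarith
        simpa using this
      rw [norm4]
      linarith

end Pool.Agent.Q25.LD
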