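import Pool.Agent.Q109.LD.Stm

set_option autoImplicit false

/-! Project LD, JOB FIN (helper25) -/

namespace Pool.Agent.Q25.LD

open Q109.LD

theorem fin : S_UP3 → S_UP1 → S_TRU → S_FAM3 → S_FAM4 → S_FIN := by
  intro hU3 hU1 hT hF3 hF4
  constructor
  · constructor
    · rintro t ⟨P, hP, hi, _, rfl⟩
      exact hU3 P hP hi
    · intro B hB
      by_contra hcon
      push Not at hcon
      obtain ⟨m, hm⟩ := exists_nat_gt (1 / (2 / 3 - B) + 2)
      have hpos : 0 < 2 / 3 - B := by linarith
      have hpos2 : 0 < 1 / (2 / 3 - B) := by positivity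
      have hm2 : (2 : ℝ) < m := by linarith
      have hm2' : 2 ≤ m := by exact_mod_cast hm2.le
      obtain ⟨a, b, W, hWc, hTr⟩ := hF3 m hm2'
      obtain ⟨t, ht, hle⟩ := hT 3 (2 * m + 2) (by norm_num) a b W 2 hTr
        (Finset.card_pos.1 (by omega))
      have htB := hB ht
      rw [hWc] at hle
      push_cast at hle
      have h1 : 4 * (m : ℝ) / (2 * m + 2 + 4 * m) ≤ B := hle.trans htB
      rw [div_le_iff₀ (by positivity)] at h1
      have h2 : 1 < (m : ℝ) * (2 / 3 - B) := by
        have : 1 / (2 / 3 - B) < m := by linarith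
        rwa [div_lt_iff₀ hpos] at this
      nlinarith
  · intro d hd
    constructor
    · rintro t ⟨P, hP, hi, _, rfl⟩
      exact hU1 d (by omega) P hP hi
    · intro B hB
      by_contra hcon
      push Not at hcon
      obtain ⟨m, hm⟩ := exists_nat_gt ((1 + d) / (1 - B) + 2)
      have hpos : 0 < 1 - B := by linarith
      have hpos2 : 0 < (1 + (d : ℝ)) / (1 - B) := by positivity
      have hm2 : (2 : ℝ) < m := by linarith
      have hm2' : 2 ≤ m := by exact_mod_cast hm2.le
      obtain ⟨a, b, W, R, hWc, hTr⟩ := hF4 d m hd hm2'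
      have hWpos : 0 < W.card := lt_of_lt_of_le (by positivity) hWc
      obtain ⟨t, ht, hle⟩ := hT d (4 * m + 2 * (d - 4)) (by omega) a b W R hTr
        (Finset.card_pos.1 hWpos)
      have htB := hB ht
      have h1 := hle.trans htB
      have hWr : (0 : ℝ) < W.card := by exact_mod_cast hWpos
      have hN : ((4 * m + 2 * (d - 4) : ℕ) : ℝ) ≤ 4 * m + 2 * d := by
        have : 4 * m + 2 * (d - 4) ≤ 4 * m + 2 * d := by omega
        exact_mod_cast this
      rw [div_le_iff₀ (by positivity)] at h1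
      have h2 : 1 + (d : ℝ) < m * (1 - B) := by
        have : (1 + (d : ℝ)) / (1 - B) < m := by linarith
        rwa [div_lt_iff₀ hpos] at this
      have hWr2 : 4 * (m : ℝ) ^ 2 ≤ W.card := by exact_mod_cast hWc
      have hN0 : (0 : ℝ) ≤ ((4 * m + 2 * (d - 4) : ℕ) : ℝ) := Nat.cast_nonneg _
      -- W (1 - B) ≤ B N ≤ N
      have h3 : (W.card : ℝ) * (1 - B) ≤ 4 * m + 2 * d := by
        rcases le_or_gt 0 B with hB0 | hB0
        · nlinarith
        · nlinarith
      have h4 : 4 * (m : ℝ) ^ 2 * (1 - B) ≤ 4 * m + 2 * d := le_trans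
        (mul_le_mul_of_nonneg_right hWr2 hpos.le) h3
      have h5 : 4 * (m : ℝ) * (1 + d) < 4 * m ^ 2 * (1 - B) := by
        nlinarith
      have hd0 : (4 : ℝ) ≤ d := by exact_mod_cast hd
      nlinarith

end Pool.Agent.Q25.LD
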