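import Pool.Agent.Q109.LD.Stm

set_option autoImplicit false

/-! Project LD, JOB GON (helper25) -/

namespace Pool.Agent.Q25.LD

open Q109.LD Real

/-- odd multiples of `π/(2m)` modulo `2π` keep their distance from the even ones -/
lemma cos_odd_le (m : ℕ) (hm : 2 ≤ m) (c : ℤ) :
    cos ((2 * c + 1) * π / (2 * m)) ≤ cos (π / (2 * m)) := by
  have hm0 : (0 : ℝ) < 2 * m := by positivity
  -- reduce modulo 4m
  obtain ⟨r, hr0, hr1, w, hw⟩ : ∃ r : ℤ, -(m : ℤ) ≤ r ∧ r < m ∧ ∃ w : ℤ, c = r + 2 * m * w := by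
    refine ⟨(c + m) % (2 * m) - m, ?_, ?_, (c + m) / (2 * m), ?_⟩
    · have := Int.emod_nonneg (c + m) (show (2 * m : ℤ) ≠ 0 by omega)
      omega
    · have := Int.emod_lt_of_pos (c + m) (show (0 : ℤ) < 2 * m by omega)
      omega
    · have := Int.emod_add_mul_ediv (c + m) (2 * m)
      linarith
  have e1 : (2 * (c : ℝ) + 1) * π / (2 * m) = (2 * r + 1) * π / (2 * m) + w * (2 * π) := by
    rw [hw]; push_cast; field_simp; ring
  rw [e1, cos_add_int_mul_two_pi, ← cos_abs]
  refine cos_le_cos_of_nonneg_of_le_pi (by positivity) ?_ ?_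
  · rw [abs_div, abs_mul, abs_of_pos pi_pos, abs_of_pos hm0, div_le_iff₀ hm0]
    have h1 : |2 * (r : ℝ) + 1| ≤ 2 * m := by
      rw [abs_le]
      constructor
      · have : (-(m : ℤ) : ℝ) ≤ r := by exact_mod_cast hr0
        push_cast at this; linarith
      · have : (r : ℝ) + 1 ≤ m := by exact_mod_cast hr1
        linarith
    nlinarith [pi_pos]
  · rw [abs_div, abs_mul, abs_of_pos pi_pos, abs_of_pos hm0]
    refine div_le_div_of_nonneg_right ?_ hm0.le
    have h1 : (1 : ℝ) ≤ |2 * (r : ℝ) + 1| := by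
      have : (1 : ℤ) ≤ |2 * r + 1| := by
        rcases le_or_gt 0 r with h | h
        · rw [abs_of_nonneg (by omega)]; omega
        · rw [abs_of_neg (by omega)]; omega
      exact_mod_cast this
    nlinarith [pi_pos]

theorem gon : S_GON := by
  intro m hm
  have hm0 : (0 : ℝ) < m := by exact_mod_cast (by omega : 0 < m)
  have hm2 : (2 : ℝ) ≤ m := by exact_mod_cast hm
  have hpi := pi_pos
  have hsmall : π / (2 * m) < π / 2 := by
    rw [div_lt_div_iff₀ (by positivity) (by norm_num)]
    nlinarith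
  have hcos : 0 < cos (π / (2 * m)) := cos_pos_of_mem_Ioo ⟨by
    have : 0 < π / (2 * m) := by positivity
    linarith, hsmall⟩
  refine ⟨hcos, ?_, ?_, ?_, ?_⟩
  · intro j k
    rw [← cos_sub]
    have e : (2 * (k : ℝ) + 1) * π / (2 * m) - j * π / m = (2 * ((k - j : ℤ) : ℝ) + 1) * π / (2 * m) := by
      push_cast; field_simp; ring
    rw [e]
    exact cos_odd_le m hm _
  · intro x y h
    by_contra hcon
    push Not at hcon
    -- polar coordinates
    set z : ℂ := ⟨x, y⟩ with hz
    have hr : ‖z‖ ^ 2 = x ^ 2 + y ^ 2 := by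
      rw [Complex.sq_norm, Complex.normSq_apply]; simp only [hz]; ring
    have hr1 : 1 < ‖z‖ := by
      by_contra hle
      push Not at hle
      have : ‖z‖ ^ 2 ≤ 1 := by nlinarith [norm_nonneg z]
      linarith
    set θ := Complex.arg z with hθ
    have hx : x = ‖z‖ * cos θ := by rw [hθ, Complex.norm_mul_cos_arg]
    have hy : y = ‖z‖ * sin θ := by rw [hθ, Complex.norm_mul_sin_arg]
    -- nearest odd multiple
    set k := ⌊θ * m / π⌋ with hk
    have hk1 : (k : ℝ) ≤ θ * m / π := Int.floor_le _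
    have hk2 : θ * m / π < k + 1 := Int.lt_floor_add_one _
    rw [le_div_iff₀ hpi] at hk1
    rw [div_lt_iff₀ hpi] at hk2
    have habs : |θ - (2 * k + 1) * π / (2 * m)| ≤ π / (2 * m) := by
      rw [abs_le]
      constructor
      · rw [← sub_nonneg]
        have : θ - (2 * k + 1) * π / (2 * m) - -(π / (2 * m)) = (θ * m - k * π) / m := by
          field_simp; ring
        rw [this]
        exact div_nonneg (by linarith) hm0.le
      · rw [← sub_nonneg]
        have : π / (2 * m) - (θ - (2 * k + 1) * π / (2 * m)) = ((k + 1) * π - θ * m) / m := by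
          field_simp; ring
        rw [this]
        exact div_nonneg (by linarith) hm0.le
    -- reduce k modulo 2m
    obtain ⟨l, hl, w, hw⟩ : ∃ l : ℕ, l < 2 * m ∧ ∃ w : ℤ, k = l + 2 * m * w := by
      have h0 := Int.emod_nonneg k (show (2 * m : ℤ) ≠ 0 by omega)
      have h1 := Int.emod_lt_of_pos k (show (0 : ℤ) < 2 * m by omega)
      refine ⟨(k % (2 * m)).toNat, by omega, k / (2 * m), ?_⟩
      have h2 := Int.emod_add_mul_ediv k (2 * m)
      rw [Int.toNat_of_nonneg h0]
      linarith
    have e1 : (2 * (k : ℝ) + 1) * π / (2 * m) = (2 * l + 1) * π / (2 * m) + w * (2 * π) := by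
      rw [hw]; push_cast; field_simp; ring
    have h2 := h l hl
    have h3 : cos ((2 * (l : ℝ) + 1) * π / (2 * m)) * x + sin ((2 * (l : ℝ) + 1) * π / (2 * m)) * y =
        ‖z‖ * cos (θ - (2 * k + 1) * π / (2 * m)) := by
      rw [e1, ← sub_sub, cos_sub_int_mul_two_pi, cos_sub]
      nth_rewrite 1 [hx]
      nth_rewrite 1 [hy]
      ring
    rw [h3] at h2
    have h4 : cos (π / (2 * m)) ≤ cos (θ - (2 * k + 1) * π / (2 * m)) := by
      rw [← cos_abs (θ - (2 * k + 1) * π / (2 * m))]
      refine cos_le_cos_of_nonneg_of_le_pi (abs_nonneg _) ?_ habs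
      linarith
    nlinarith
  · intro j k hj hk hc hs
    have h1 : cos (j * π / m - k * π / m) = 1 := by
      rw [cos_sub, hc, hs, ← sq, ← sq, cos_sq_add_sin_sq]
    obtain ⟨n, hn⟩ := (cos_eq_one_iff _).1 h1
    have h2 : (n : ℝ) * (2 * m) = j - k := by
      field_simp at hn
      nlinarith [hn, hpi]
    have h3 : (n : ℤ) * (2 * m) = j - k := by exact_mod_cast h2
    have h4 : n = 0 := by
      by_contra hne
      rcases lt_or_gt_of_ne hne with h | h
      · nlinarith
      · nlinarith
    rw [h4] at h3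
    omega
  · intro k hk
    have key : ∀ l w : ℤ, l = k + m + 2 * m * w →
        cos ((2 * (l : ℝ) + 1) * π / (2 * m)) = -cos ((2 * (k : ℝ) + 1) * π / (2 * m)) ∧
        sin ((2 * (l : ℝ) + 1) * π / (2 * m)) = -sin ((2 * (k : ℝ) + 1) * π / (2 * m)) ∧
        cos ((l : ℝ) * π / m) = -cos ((k : ℝ) * π / m) ∧
        sin ((l : ℝ) * π / m) = -sin ((k : ℝ) * π / m) := by
      intro l w hw
      have e1 : (2 * (l : ℝ) + 1) * π / (2 * m) = (2 * k + 1) * π / (2 * m) + π + w * (2 * π) := by
        rw [hw]; push_cast; field_simp; ring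
      have e2 : (l : ℝ) * π / m = k * π / m + π + w * (2 * π) := by
        rw [hw]; push_cast; field_simp
      rw [e1, e2, cos_add_int_mul_two_pi, cos_add_int_mul_two_pi, sin_add_int_mul_two_pi,
        sin_add_int_mul_two_pi, cos_add_pi, cos_add_pi, sin_add_pi, sin_add_pi]
      exact ⟨rfl, rfl, rfl, rfl⟩
    by_cases h : k < m
    · refine ⟨k + m, by omega, ?_⟩
      have := key (k + m) 0 (by ring)
      push_cast at this ⊢
      exact this
    · refine ⟨k - m, by omega, ?_⟩
      have := key (k - m) (-1) (by ring)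
      rw [Nat.cast_sub (by omega)]
      push_cast at this ⊢
      exact this

end Pool.Agent.Q25.LD
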