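import Pool.Agent.Q109.LD.Stm
import Pool.Agent.H168DD.TB

set_option autoImplicit false

/-! Project LD, JOB TB (helper25) -/

namespace Pool.Agent.Q25.LD

open Q109.LD

theorem tb : S_TB := by
  classical
  intro n G D hG
  -- the hypothesis for finsets of finsets
  have hF : ∀ (A : Finset (Fin n)) (F : Finset (Finset (Fin n))), (∀ O ∈ F, Odd O.card) →
      (∀ O ∈ F, ∀ O' ∈ F, O ≠ O' → Disjoint O O') → (∀ O ∈ F, Disjoint O A) →
      (∀ O ∈ F, ∀ x ∈ O, ∀ y, G.Adj x y → y ∈ O ∨ y ∈ A) → F.card ≤ D + A.card := by
    intro A F h1 h2 h3 h4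
    refine hG A F.card (fun k => (F.equivFin.symm k : Finset (Fin n)))
      (fun k => h1 _ (F.equivFin.symm k).2) (fun k => h3 _ (F.equivFin.symm k).2) ?_ ?_
    · intro k l hkl
      refine h2 _ (F.equivFin.symm k).2 _ (F.equivFin.symm l).2 fun e => hkl ?_
      exact F.equivFin.symm.injective (Subtype.ext e)
    · intro k a ha b hb hbS hab
      rcases h4 _ (F.equivFin.symm k).2 a ha b hab with h | h
      · exact hb h
      · exact hbS h
  -- choice of l
  obtain ⟨l, hlD, heven, hl⟩ : ∃ l, l ≤ D ∧ Even ((Finset.univ : Finset (Fin n)).card + l) ∧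
      ∀ (A : Finset (Fin n)) (F : Finset (Finset (Fin n))), A ⊆ Finset.univ →
      (∀ O ∈ F, Odd O.card) →
      (∀ O ∈ F, ∀ O' ∈ F, O ≠ O' → Disjoint O O') → (∀ O ∈ F, O ⊆ Finset.univ \ A) →
      (∀ O ∈ F, ∀ x ∈ O, ∀ y ∈ (Finset.univ : Finset (Fin n)), G.Adj x y → y ∈ O ∨ y ∈ A) →
      F.card ≤ A.card + l := by
    rw [Finset.card_univ, Fintype.card_fin]
    rcases Nat.even_or_odd (n + D) with he | ho
    · refine ⟨D, le_rfl, he, fun A F _ h1 h2 h3 h4 => ?_⟩
      have := hF A F h1 h2 (fun O hO => by
        rw [Finset.disjoint_left]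
        intro x hx
        exact (Finset.mem_sdiff.1 (h3 O hO hx)).2) (fun O hO x hx y hxy =>
          h4 O hO x hx y (Finset.mem_univ _) hxy)
      omega
    · -- all families are smaller by one
      have key : ∀ (A : Finset (Fin n)) (F : Finset (Finset (Fin n))), (∀ O ∈ F, Odd O.card) →
          (∀ O ∈ F, ∀ O' ∈ F, O ≠ O' → Disjoint O O') → (∀ O ∈ F, Disjoint O A) →
          (∀ O ∈ F, ∀ x ∈ O, ∀ y, G.Adj x y → y ∈ O ∨ y ∈ A) → F.card + 1 ≤ D + A.card := by
        intro A F h1 h2 h3 h4
        by_contra hcon
        have h0 := hF A F h1 h2 h3 h4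
        have hcard : F.card = D + A.card := by omega
        let B := F.biUnion id
        have hB : B.card = ∑ O ∈ F, O.card := Finset.card_biUnion fun O hO O' hO' hne =>
          h2 O hO O' hO' hne
        have hBA : Disjoint A B := by
          rw [Finset.disjoint_left]
          intro x hxA hxB
          obtain ⟨O, hO, hxO⟩ := Finset.mem_biUnion.1 hxB
          exact (Finset.disjoint_left.1 (h3 O hO)) hxO hxA
        let R := Finset.univ \ (A ∪ B)
        have hRcard : R.card + (A.card + B.card) = n := by
          rw [← Finset.card_union_of_disjoint hBA]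
          have := Finset.card_sdiff_add_card_eq_card (Finset.subset_univ (A ∪ B))
          rwa [Finset.card_univ, Fintype.card_fin] at this
        have hpar : B.card % 2 = F.card % 2 := by
          rw [hB, Finset.sum_nat_mod, Finset.sum_congr rfl (fun O hO => Nat.odd_iff.1 (h1 O hO))]
          simp
        have hRodd : Odd R.card := by
          rw [Nat.odd_iff] at ho ⊢
          omega
        have hRF : R ∉ F := by
          intro hR
          obtain ⟨x, hx⟩ : R.Nonempty := Finset.card_pos.1 hRodd.pos
          have hx1 := (Finset.mem_sdiff.1 hx).2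
          exact hx1 (Finset.mem_union_right _ (Finset.mem_biUnion.2 ⟨R, hR, hx⟩))
        have := hF A (insert R F) ?_ ?_ ?_ ?_
        · rw [Finset.card_insert_of_notMem hRF] at this
          omega
        · intro O hO
          rcases Finset.mem_insert.1 hO with rfl | hO
          · exact hRodd
          · exact h1 O hO
        · have hd : ∀ O ∈ F, Disjoint R O := by
            intro O hO
            rw [Finset.disjoint_left]
            intro x hx hxO
            exact (Finset.mem_sdiff.1 hx).2 (Finset.mem_union_right _
              (Finset.mem_biUnion.2 ⟨O, hO, hxO⟩))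
          intro O hO O' hO' hne
          rcases Finset.mem_insert.1 hO with h | h
          · rcases Finset.mem_insert.1 hO' with h' | h'
            · exact absurd (h.trans h'.symm) hne
            · rw [h]; exact hd O' h'
          · rcases Finset.mem_insert.1 hO' with h' | h'
            · rw [h']; exact (hd O h).symm
            · exact h2 O h O' h' hne
        · intro O hO
          rcases Finset.mem_insert.1 hO with rfl | hO
          · rw [Finset.disjoint_left]
            intro x hx hxA
            exact (Finset.mem_sdiff.1 hx).2 (Finset.mem_union_left _ hxA)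
          · exact h3 O hO
        · intro O hO x hx y hxy
          rcases Finset.mem_insert.1 hO with h | h
          · rw [h] at hx ⊢
            by_contra hcon2
            push Not at hcon2
            have hyB : y ∈ B := by
              by_contra hyB
              refine hcon2.1 (Finset.mem_sdiff.2 ⟨Finset.mem_univ _, fun hy => ?_⟩)
              rcases Finset.mem_union.1 hy with h | h
              · exact hcon2.2 h
              · exact hyB h
            obtain ⟨O', hO', hyO'⟩ := Finset.mem_biUnion.1 hyB
            have hx1 := (Finset.mem_sdiff.1 hx).2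
            rcases h4 O' hO' y hyO' x hxy.symm with h | h
            · exact hx1 (Finset.mem_union_right _ (Finset.mem_biUnion.2 ⟨O', hO', h⟩))
            · exact hx1 (Finset.mem_union_left _ h)
          · exact h4 O h x hx y hxy
      have hD1 : 1 ≤ D := by
        have := key ∅ ∅ (by simp) (by simp) (by simp) (by simp)
        simpa using this
      refine ⟨D - 1, by omega, ?_, fun A F _ h1 h2 h3 h4 => ?_⟩
      · rw [Nat.even_iff]; rw [Nat.odd_iff] at ho; omega
      · have := key A F h1 h2 (fun O hO => by
          rw [Finset.disjoint_left]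
          intro x hx
          exact (Finset.mem_sdiff.1 (h3 O hO hx)).2) (fun O hO x hx y hxy =>
            h4 O hO x hx y (Finset.mem_univ _) hxy)
        omega
  obtain ⟨U, m, -, hU, hm⟩ := H168DD.tutte_berge G Finset.univ l heven hl
  set M := (Finset.univ : Finset (Fin n)) \ U with hM
  have hMn : M.card + U.card = n := by
    have := Finset.card_sdiff_add_card_eq_card (Finset.subset_univ U)
    rwa [Finset.card_univ, Fintype.card_fin] at this
  let R0 := M.filter (fun x => x < m x)
  let R1 := M.filter (fun x => ¬ x < m x)
  have hne : ∀ x ∈ M, x ≠ m x := fun x hx e => by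
    have := (hm x hx).2.2
    rw [← e] at this
    exact G.irrefl this
  have hR01 : R0.card = R1.card := by
    refine Finset.card_nbij' m m ?_ ?_ ?_ ?_
    · intro x hx
      obtain ⟨hxM, hlt⟩ := Finset.mem_filter.1 hx
      refine Finset.mem_filter.2 ⟨(hm x hxM).1, ?_⟩
      rw [(hm x hxM).2.1]
      exact not_lt.2 hlt.le
    · intro x hx
      obtain ⟨hxM, hlt⟩ := Finset.mem_filter.1 hx
      refine Finset.mem_filter.2 ⟨(hm x hxM).1, ?_⟩
      rw [(hm x hxM).2.1]
      exact lt_of_le_of_ne (not_lt.1 hlt) (hne x hxM).symm
    · intro x hx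
      exact (hm x (Finset.mem_filter.1 hx).1).2.1
    · intro x hx
      exact (hm x (Finset.mem_filter.1 hx).1).2.1
  have hR : R0.card + R1.card = M.card := Finset.card_filter_add_card_filter_not _
  let xs : Fin R0.card → Fin n := fun k => (R0.equivFin.symm k : Fin n)
  have hxs : ∀ k, xs k ∈ M ∧ xs k < m (xs k) := fun k =>
    Finset.mem_filter.1 (R0.equivFin.symm k).2
  have hinj : Function.Injective xs := fun k l h => R0.equivFin.symm.injective (Subtype.ext h)
  refine ⟨R0.card, fun k => (xs k, m (xs k)), fun k => (hm _ (hxs k).1).2.2, ?_, by omega⟩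
  intro k l hkl
  refine ⟨fun h => hkl (hinj h), ?_, ?_⟩
  · intro h
    simp only at h
    have h1 := hxs k
    have h2 := hxs l
    have h3 := (hm _ h2.1).2.1
    rw [← h] at h3
    rw [h3] at h1
    rw [h] at h1
    exact absurd (lt_trans h1.2 h2.2) (lt_irrefl _)
  · intro h
    simp only at h
    refine hkl (hinj ?_)
    rw [← (hm _ (hxs k).1).2.1, h, (hm _ (hxs l).1).2.1]

end Pool.Agent.Q25.LD
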