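import Pool.Agent.Q109.LD.Stm

set_option autoImplicit false

/-! Project LD, JOB VIS (helper25) -/

namespace Pool.Agent.Q25.LD

open Q109.LD

theorem vis : S_VIS := by
  classical
  intro d n u h x i j A hi hj hix hjx hiA hjA
  obtain ⟨p, hp, hpi⟩ := hi
  obtain ⟨q, hq, hqj⟩ := hj
  -- the values
  let N : Fin n → ℝ → ℝ := fun k t => h k - ((1 - t) * inner ℝ (u k) p + t * inner ℝ (u k) q)
  let D : Fin n → ℝ → ℝ := fun k t =>
    inner ℝ (u k) x - ((1 - t) * inner ℝ (u k) p + t * inner ℝ (u k) q)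
  have hN : ∀ k, ∀ t ∈ Set.Icc (0 : ℝ) 1, 0 ≤ N k t := by
    intro k t ht
    have h1 := hp k
    have h2 := hq k
    have h3 := mul_le_mul_of_nonneg_left h1 (sub_nonneg.2 ht.2)
    have h4 := mul_le_mul_of_nonneg_left h2 ht.1
    simp only [N]
    nlinarith
  have hD : ∀ k, h k < inner ℝ (u k) x → ∀ t ∈ Set.Icc (0 : ℝ) 1, 0 < D k t := by
    intro k hk t ht
    have := hN k t ht
    simp only [N, D] at this ⊢
    linarith
  have hND : ∀ k, h k < inner ℝ (u k) x → ∀ t, N k t < D k t := by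
    intro k hk t
    simp only [N, D]
    linarith
  have hNc : ∀ k, Continuous (N k) := fun k => by simp only [N]; fun_prop
  have hDc : ∀ k, Continuous (D k) := fun k => by simp only [D]; fun_prop
  let V : Finset (Fin n) := Finset.univ.filter (fun k => h k < inner ℝ (u k) x)
  have hV : ∀ k, k ∈ V ↔ h k < inner ℝ (u k) x := fun k => by simp [V]
  let T : Fin n → Set ℝ := fun k => {t | ∀ l ∈ V, N k t * D l t ≤ N l t * D k t}
  have hTc : ∀ k, IsClosed (T k) := by
    intro k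
    have : T k = ⋂ l ∈ V, {t | N k t * D l t ≤ N l t * D k t} := by
      ext t; simp [T]
    rw [this]
    exact isClosed_biInter fun l _ =>
      isClosed_le ((hNc k).mul (hDc l)) ((hNc l).mul (hDc k))
  have hSA : IsClosed (⋃ k ∈ V.filter (fun k => k ∈ A), T k) :=
    Set.Finite.isClosed_biUnion (Finset.finite_toSet _) fun k _ => hTc k
  have hSB : IsClosed (⋃ k ∈ V.filter (fun k => k ∉ A), T k) :=
    Set.Finite.isClosed_biUnion (Finset.finite_toSet _) fun k _ => hTc k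
  have hcov : Set.Icc (0 : ℝ) 1 ⊆ (⋃ k ∈ V.filter (fun k => k ∈ A), T k) ∪
      (⋃ k ∈ V.filter (fun k => k ∉ A), T k) := by
    intro t ht
    obtain ⟨k, hk, hmin⟩ := Finset.exists_min_image V (fun k => N k t / D k t) ⟨i, (hV i).2 hix⟩
    have hkT : t ∈ T k := by
      intro l hl
      have h1 := hmin l hl
      rw [div_le_div_iff₀ (hD k ((hV k).1 hk) t ht) (hD l ((hV l).1 hl) t ht)] at h1
      exact h1
    by_cases hkA : k ∈ A
    · left
      simp only [Set.mem_iUnion]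
      exact ⟨k, Finset.mem_filter.2 ⟨hk, hkA⟩, hkT⟩
    · right
      simp only [Set.mem_iUnion]
      exact ⟨k, Finset.mem_filter.2 ⟨hk, hkA⟩, hkT⟩
  have h0 : (Set.Icc (0 : ℝ) 1 ∩ ⋃ k ∈ V.filter (fun k => k ∈ A), T k).Nonempty := by
    refine ⟨0, ⟨le_rfl, zero_le_one⟩, ?_⟩
    simp only [Set.mem_iUnion]
    refine ⟨i, Finset.mem_filter.2 ⟨(hV i).2 hix, hiA⟩, fun l hl => ?_⟩
    have h1 : N i 0 = 0 := by simp only [N]; rw [hpi]; ring
    rw [h1, zero_mul]
    exact mul_nonneg (hN l 0 ⟨le_rfl, zero_le_one⟩) (hD i hix 0 ⟨le_rfl, zero_le_one⟩).le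
  have h1 : (Set.Icc (0 : ℝ) 1 ∩ ⋃ k ∈ V.filter (fun k => k ∉ A), T k).Nonempty := by
    refine ⟨1, ⟨zero_le_one, le_rfl⟩, ?_⟩
    simp only [Set.mem_iUnion]
    refine ⟨j, Finset.mem_filter.2 ⟨(hV j).2 hjx, hjA⟩, fun l hl => ?_⟩
    have h1 : N j 1 = 0 := by simp only [N]; rw [hqj]; ring
    rw [h1, zero_mul]
    exact mul_nonneg (hN l 1 ⟨zero_le_one, le_rfl⟩) (hD j hjx 1 ⟨zero_le_one, le_rfl⟩).le
  obtain ⟨t, ht, htA, htB⟩ := isPreconnected_closed_iff.1 isPreconnected_Icc _ _ hSA hSB hcov h0 h1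
  simp only [Set.mem_iUnion] at htA htB
  obtain ⟨a, ha, haT⟩ := htA
  obtain ⟨b, hb, hbT⟩ := htB
  obtain ⟨haV, haA⟩ := Finset.mem_filter.1 ha
  obtain ⟨hbV, hbA⟩ := Finset.mem_filter.1 hb
  have hax := (hV a).1 haV
  have hbx := (hV b).1 hbV
  refine ⟨a, haA, b, hbA, hax, hbx, ?_⟩
  have hDa := hD a hax t ht
  have hDb := hD b hbx t ht
  have heq : N a t * D b t = N b t * D a t := le_antisymm (haT b hbV) (hbT a haV)
  set lam := N a t / D a t with hlam
  have hl0 : 0 ≤ lam := div_nonneg (hN a t ht) hDa.le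
  have hl1 : lam ≤ 1 := (div_le_one hDa).2 (hND a hax t).le
  have hlb : lam = N b t / D b t := by
    rw [hlam, div_eq_div_iff hDa.ne' hDb.ne']; exact heq
  let z : E d := (1 - lam) • ((1 - t) • p + t • q) + lam • x
  have hz : ∀ k, inner ℝ (u k) z = ((1 - t) * inner ℝ (u k) p + t * inner ℝ (u k) q) +
      lam * D k t := by
    intro k
    simp only [z, D, inner_add_right, real_inner_smul_right]
    ring
  have hzp : z ∈ poly u h := by
    intro k
    rw [hz k]
    have hNk := hN k t ht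
    by_cases hk : k ∈ V
    · have h2 := haT k hk
      have h3 := hD k ((hV k).1 hk) t ht
      have h4 : lam * D k t ≤ N k t := by
        rw [hlam, div_mul_eq_mul_div, div_le_iff₀ hDa]
        exact h2
      simp only [N] at h4
      linarith
    · have h2 : inner ℝ (u k) x ≤ h k := by
        rw [hV] at hk; exact not_lt.1 hk
      simp only [N, D] at hNk ⊢
      nlinarith
  refine ⟨z, ⟨hzp, ?_⟩, ⟨hzp, ?_⟩⟩
  · rw [hz a]
    have : lam * D a t = N a t := by rw [hlam, div_mul_cancel₀ _ hDa.ne']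
    rw [this]; simp only [N]; ring
  · rw [hz b]
    have : lam * D b t = N b t := by rw [hlb, div_mul_cancel₀ _ hDb.ne']
    rw [this]; simp only [N]; ring

end Pool.Agent.Q25.LD
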