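import Mathlib
import Pool.Agent.Q16.SQ.Stm5
set_option autoImplicit false
noncomputable section
open Polynomial

namespace Q16.SQ.SemiPf

/-- The root of unity whose real part is a cosine. -/
lemma root_eq (M : ℕ) (j : ℤ) : Complex.exp (2 * Real.pi * Complex.I / M) ^ j =
    Complex.exp (((j * (2 * Real.pi / M) : ℝ) : ℂ) * Complex.I) := by
  rw [← Complex.exp_int_mul]
  congr 1
  push_cast
  ring

lemma cos_root (M : ℕ) (hM : 0 < M) (j : ℤ) :
    (Complex.exp (2 * Real.pi * Complex.I / M) ^ j +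
      (Complex.exp (2 * Real.pi * Complex.I / M) ^ j) ^ (M - 1)) * (1 / 2) =
      ((Real.cos (j * (2 * Real.pi / M)) : ℝ) : ℂ) := by
  have hp := Complex.isPrimitiveRoot_exp M hM.ne'
  set ζ := Complex.exp (2 * Real.pi * Complex.I / M) with hζ
  have h0 : ζ ≠ 0 := Complex.exp_ne_zero _
  have h1 : (ζ ^ j) ^ M = 1 := by
    rw [← zpow_natCast, ← zpow_mul, mul_comm, zpow_mul, zpow_natCast, hp.pow_eq_one, one_zpow]
  have h2 : (ζ ^ j) ^ (M - 1) = (ζ ^ j)⁻¹ := by
    apply eq_inv_of_mul_eq_one_left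
    rw [← pow_succ, Nat.sub_add_cancel hM]
    exact h1
  rw [h2, hζ, root_eq, Complex.ofReal_cos, Complex.cos, ← Complex.exp_neg]
  ring_nf

lemma root_transfer (M : ℕ) (hM : 0 < M) (j : ℤ) (hj : IsCoprime j (M : ℤ)) (P : ℚ[X])
    (hP : aeval (Real.cos (2 * Real.pi / M)) P = 0) :
    aeval (Real.cos (j * (2 * Real.pi / M))) P = 0 := by
  have hp := Complex.isPrimitiveRoot_exp M hM.ne'
  have hpj : IsPrimitiveRoot (Complex.exp (2 * Real.pi * Complex.I / M) ^ j) M :=
    hp.zpow_of_gcd_eq_one j (Int.isCoprime_iff_gcd_eq_one.1 hj)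
  set Q : ℚ[X] := P.comp ((X + X ^ (M - 1)) * C (1 / 2)) with hQ
  have hval : ∀ k : ℤ, aeval (Complex.exp (2 * Real.pi * Complex.I / M) ^ k) Q =
      ((aeval (Real.cos (k * (2 * Real.pi / M))) P : ℝ) : ℂ) := by
    intro k
    have h1 : aeval (Complex.exp (2 * Real.pi * Complex.I / M) ^ k)
        ((X + X ^ (M - 1)) * C (1 / 2) : ℚ[X]) =
        ((Real.cos (k * (2 * Real.pi / M)) : ℝ) : ℂ) := by
      rw [← cos_root M hM k]
      simp
    rw [hQ, aeval_comp, h1]
    exact aeval_algebraMap_apply ℂ (Real.cos (k * (2 * Real.pi / M))) P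
  have h0 : aeval (Complex.exp (2 * Real.pi * Complex.I / M)) Q = 0 := by
    have := hval 1
    rw [zpow_one] at this
    rw [this]
    simp only [Int.cast_one, one_mul, hP, Complex.ofReal_zero]
  have hdvd : minpoly ℚ (Complex.exp (2 * Real.pi * Complex.I / M)) ∣ Q := minpoly.dvd ℚ _ h0
  rw [← cyclotomic_eq_minpoly_rat hp hM, cyclotomic_eq_minpoly_rat hpj hM] at hdvd
  have h2 : aeval (Complex.exp (2 * Real.pi * Complex.I / M) ^ j) Q = 0 := by
    obtain ⟨R, hR⟩ := hdvd
    rw [hR, map_mul, minpoly.aeval, zero_mul]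
  rw [hval j] at h2
  exact_mod_cast h2

lemma integral_cos (M : ℕ) : IsIntegral ℚ (Real.cos (2 * Real.pi / M)) := by
  have h := (Real.isAlgebraic_cos_rat_mul_pi (2 / M : ℚ))
  have h2 : IsAlgebraic ℚ (Real.cos (((2 / M : ℚ) : ℝ) * Real.pi)) :=
    (IsFractionRing.isAlgebraic_iff ℤ ℚ ℝ).1 h
  have h3 : ((2 / M : ℚ) : ℝ) * Real.pi = 2 * Real.pi / M := by
    push_cast
    ring
  rw [h3] at h2
  exact h2.isIntegral

lemma aeval_T (n : ℤ) (θ : ℝ) : aeval (Real.cos θ) (Chebyshev.T ℚ n) = Real.cos (n * θ) := by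
  rw [← Chebyshev.T_real_cos, ← Chebyshev.map_T (algebraMap ℚ ℝ), eval_map_algebraMap]

/-- The automorphism of the real subfield. -/
lemma exists_hom (M : ℕ) (hM : 0 < M) (j : ℤ) (hj : IsCoprime j (M : ℤ)) :
    ∃ (K : IntermediateField ℚ ℝ) (φ : K →+* K), ∀ k : ℤ,
      ∃ h : Real.cos (k * (2 * Real.pi / M)) ∈ K,
        ((φ ⟨_, h⟩ : K) : ℝ) = Real.cos ((j * k : ℤ) * (2 * Real.pi / M)) := by
  set α := Real.cos (2 * Real.pi / M) with hα
  have hint : IsIntegral ℚ α := integral_cos M
  have hgen : α ∈ IntermediateField.adjoin ℚ {α} := IntermediateField.mem_adjoin_simple_self ℚ α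
  have hT : ∀ (n : ℤ) (x : IntermediateField.adjoin ℚ {α}),
      ((aeval x (Chebyshev.T ℚ n) : IntermediateField.adjoin ℚ {α}) : ℝ) =
        aeval (x : ℝ) (Chebyshev.T ℚ n) := by
    intro n x
    exact (aeval_algebraMap_apply ℝ x (Chebyshev.T ℚ n)).symm
  set g : IntermediateField.adjoin ℚ {α} := ⟨α, hgen⟩ with hg
  have hcos : ∀ k : ℤ, ((aeval g (Chebyshev.T ℚ k) : IntermediateField.adjoin ℚ {α}) : ℝ) =
      Real.cos (k * (2 * Real.pi / M)) := by
    intro k
    rw [hT]
    exact aeval_T k _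
  have hroot : aeval (aeval g (Chebyshev.T ℚ j)) (minpoly ℚ α) = 0 := by
    apply Subtype.ext
    have h1 : ((aeval (aeval g (Chebyshev.T ℚ j)) (minpoly ℚ α) :
        IntermediateField.adjoin ℚ {α}) : ℝ) =
        aeval ((aeval g (Chebyshev.T ℚ j) : IntermediateField.adjoin ℚ {α}) : ℝ) (minpoly ℚ α) :=
      (aeval_algebraMap_apply ℝ (aeval g (Chebyshev.T ℚ j)) (minpoly ℚ α)).symm
    rw [h1, hcos]
    exact root_transfer M hM j hj _ (minpoly.aeval ℚ α)
  have hmem : aeval g (Chebyshev.T ℚ j) ∈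
      (minpoly ℚ α).aroots (IntermediateField.adjoin ℚ {α}) := by
    rw [mem_aroots]
    exact ⟨minpoly.ne_zero hint, hroot⟩
  set φ := (IntermediateField.algHomAdjoinIntegralEquiv ℚ hint).symm ⟨_, hmem⟩ with hφ
  have hφg : φ g = aeval g (Chebyshev.T ℚ j) :=
    IntermediateField.algHomAdjoinIntegralEquiv_symm_apply_gen ℚ hint ⟨_, hmem⟩
  refine ⟨IntermediateField.adjoin ℚ {α}, φ.toRingHom, fun k => ?_⟩
  have h : Real.cos (k * (2 * Real.pi / M)) ∈ IntermediateField.adjoin ℚ {α} := by
    rw [← hcos k]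
    exact (aeval g (Chebyshev.T ℚ k)).2
  refine ⟨h, ?_⟩
  have h2 : (⟨_, h⟩ : IntermediateField.adjoin ℚ {α}) = aeval g (Chebyshev.T ℚ k) :=
    Subtype.ext (hcos k).symm
  rw [h2]
  have h3 : φ.toRingHom (aeval g (Chebyshev.T ℚ k)) = aeval (φ g) (Chebyshev.T ℚ k) :=
    (aeval_algHom_apply φ g (Chebyshev.T ℚ k)).symm
  rw [h3, hφg, hT, hcos, aeval_T]
  congr 1
  push_cast
  ring

/-- The semilinear map of the real line. -/
lemma exists_semi (K : IntermediateField ℚ ℝ) (φ : K →+* K) :
    ∃ f : ℝ → ℝ, (∀ x y, f (x + y) = f x + f y) ∧ Function.Injective f ∧ f 1 = 1 ∧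
      ∀ (c : K) (x : ℝ), f (c * x) = φ c * f x := by
  set b := Module.Basis.ofVectorSpace K ℝ with hb
  set F : ℝ → ℝ := fun x => b.repr.symm (Finsupp.mapRange φ (map_zero φ) (b.repr x)) with hF
  have hadd : ∀ x y, F (x + y) = F x + F y := by
    intro x y
    simp only [hF, map_add]
    rw [Finsupp.mapRange_add (fun a b => map_add φ a b), map_add]
  have hinj : Function.Injective F := by
    intro x y h
    have h1 := b.repr.symm.injective h
    have h2 := Finsupp.mapRange_injective φ (map_zero φ) φ.injective h1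
    exact b.repr.injective h2
  have hsm : ∀ (c : K) (x : ℝ), F (c * x) = φ c * F x := by
    intro c x
    have h1 : (c : ℝ) * x = c • x := rfl
    have h2 : ((φ c : K) : ℝ) * F x = (φ c) • F x := rfl
    rw [h1, h2]
    simp only [hF, map_smul]
    rw [← map_smul b.repr.symm]
    congr 1
    ext i
    simp [Finsupp.mapRange_apply]
  have h0 : F 0 = 0 := by
    have := hadd 0 0
    simp only [add_zero] at this
    linarith
  have h1 : F 1 ≠ 0 := by
    intro h
    exact one_ne_zero (hinj (h.trans h0.symm))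
  refine ⟨fun x => F x / F 1, ?_, ?_, ?_, ?_⟩
  · intro x y
    simp only [hadd, add_div]
  · intro x y h
    exact hinj ((div_left_inj' h1).1 h)
  · exact div_self h1
  · intro c x
    simp only [hsm, mul_div_assoc]

end Q16.SQ.SemiPf

namespace Q16.SQ

open SemiPf

theorem t_SEMI : S_SEMI := by
  intro M j hM h4 hj
  obtain ⟨K, φ, hφ⟩ := exists_hom M hM j hj
  obtain ⟨f, hadd, hinj, h1, hsm⟩ := exists_semi K φ
  have hc : ∀ (k : ℤ) (x : ℝ), f (Real.cos (k * (2 * Real.pi / M)) * x) =
      Real.cos ((j * k : ℤ) * (2 * Real.pi / M)) * f x := by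
    intro k x
    obtain ⟨h, hk⟩ := hφ k
    rw [← hk]
    exact hsm ⟨_, h⟩ x
  obtain ⟨m, hm⟩ := h4
  have hm0 : 0 < m := by omega
  have hodd : Odd j := by
    by_contra hne
    rw [Int.not_odd_iff_even] at hne
    obtain ⟨r, hr⟩ := hne
    obtain ⟨a, b, hab⟩ := hj
    rw [hr, hm] at hab
    push_cast at hab
    have : (2 : ℤ) ∣ 1 := ⟨a * r + b * (2 * m), by rw [← hab]; ring⟩
    omega
  obtain ⟨ε, hε, hεj⟩ : ∃ ε : ℝ, ε ^ 2 = 1 ∧
      (Real.cos (j * (Real.pi / 2)) = 0 ∧ Real.sin (j * (Real.pi / 2)) = ε) := by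
    refine ⟨Real.sin (j * (Real.pi / 2)), ?_, ?_, rfl⟩
    · have h2 : Real.cos (j * (Real.pi / 2)) = 0 := by
        obtain ⟨r, hr⟩ := hodd
        rw [Real.cos_eq_zero_iff]
        refine ⟨r, ?_⟩
        rw [hr]
        push_cast
        ring
      have := Real.sin_sq_add_cos_sq (j * (Real.pi / 2))
      rw [h2] at this
      linarith
    · obtain ⟨r, hr⟩ := hodd
      rw [Real.cos_eq_zero_iff]
      refine ⟨r, ?_⟩
      rw [hr]
      push_cast
      ring
  obtain ⟨hcj, hsj⟩ := hεj
  have hMm : (2 * Real.pi / M : ℝ) * m = Real.pi / 2 := by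
    have hm' : (m : ℝ) ≠ 0 := by exact_mod_cast hm0.ne'
    rw [hm]
    push_cast
    field_simp
    ring
  have hs : ∀ (k : ℤ) (x : ℝ), f (Real.sin (k * (2 * Real.pi / M)) * x) =
      ε * Real.sin ((j * k : ℤ) * (2 * Real.pi / M)) * f x := by
    intro k x
    have e1 : Real.sin (k * (2 * Real.pi / M)) =
        Real.cos ((k - m : ℤ) * (2 * Real.pi / M)) := by
      have : ((k - m : ℤ) : ℝ) * (2 * Real.pi / M) = k * (2 * Real.pi / M) - Real.pi / 2 := by
        rw [← hMm]
        push_cast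
        ring
      rw [this, Real.cos_sub_pi_div_two]
    have e2 : Real.cos ((j * (k - m) : ℤ) * (2 * Real.pi / M)) =
        ε * Real.sin ((j * k : ℤ) * (2 * Real.pi / M)) := by
      have : ((j * (k - m) : ℤ) : ℝ) * (2 * Real.pi / M) =
          (j * k : ℤ) * (2 * Real.pi / M) - j * (Real.pi / 2) := by
        rw [← hMm]
        push_cast
        ring
      rw [this, Real.cos_sub, hcj, hsj]
      ring
    rw [e1, hc, e2]
  have hneg : ∀ x, f (-x) = - f x := by
    intro x
    have h2 := hadd x (-x)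
    have h3 := hadd 0 0
    simp only [add_zero] at h3
    rw [add_neg_cancel] at h2
    linarith
  have hrt : ∀ k : ℤ, rt M k = ((Real.cos (k * (2 * Real.pi / M)) : ℝ) : ℂ) +
      ((Real.sin (k * (2 * Real.pi / M)) : ℝ) : ℂ) * Complex.I := by
    intro k
    rw [rt, Complex.ofReal_cos, Complex.ofReal_sin, ← Complex.exp_mul_I]
    congr 1
    push_cast
    ring
  have hεne : ε ≠ 0 := by
    intro h
    rw [h] at hε
    norm_num at hε
  refine ⟨fun z => ((f z.re : ℝ) : ℂ) + ((ε * f z.im : ℝ) : ℂ) * Complex.I, ?_, ?_, ?_, ?_, ?_⟩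
  · intro z w
    apply Complex.ext
    · simp [hadd]
    · simp [hadd, mul_add]
  · intro z w h
    have hre := congrArg Complex.re h
    have him := congrArg Complex.im h
    simp only [Complex.add_re, Complex.ofReal_re, Complex.mul_re, Complex.I_re, mul_zero,
      Complex.ofReal_im, Complex.I_im, zero_mul, sub_zero, add_zero, mul_one] at hre
    simp only [Complex.add_im, Complex.ofReal_re, Complex.mul_im, Complex.I_re, mul_zero,
      Complex.ofReal_im, Complex.I_im, zero_add, add_zero, mul_one] at him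
    exact Complex.ext (hinj hre) (hinj (mul_left_cancel₀ hεne him))
  · intro k z
    have hre : f (rt M k * z).re = Real.cos ((j * k : ℤ) * (2 * Real.pi / M)) * f z.re -
        ε * Real.sin ((j * k : ℤ) * (2 * Real.pi / M)) * f z.im := by
      have : (rt M k * z).re = Real.cos (k * (2 * Real.pi / M)) * z.re +
          -(Real.sin (k * (2 * Real.pi / M)) * z.im) := by
        rw [hrt]
        simp only [Complex.add_re, Complex.ofReal_re, Complex.mul_re, Complex.I_re, mul_zero,
          Complex.ofReal_im, Complex.I_im, sub_zero, add_zero, mul_one, Complex.add_im,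
          Complex.mul_im, zero_add]
        ring
      rw [this, hadd, hneg, hc, hs]
      ring
    have him : f (rt M k * z).im = Real.cos ((j * k : ℤ) * (2 * Real.pi / M)) * f z.im +
        ε * Real.sin ((j * k : ℤ) * (2 * Real.pi / M)) * f z.re := by
      have : (rt M k * z).im = Real.cos (k * (2 * Real.pi / M)) * z.im +
          Real.sin (k * (2 * Real.pi / M)) * z.re := by
        rw [hrt]
        simp only [Complex.add_re, Complex.ofReal_re, Complex.mul_re, Complex.I_re, mul_zero,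
          Complex.ofReal_im, Complex.I_im, sub_zero, add_zero, mul_one, Complex.add_im,
          Complex.mul_im, zero_add]
      rw [this, hadd, hc, hs]
    simp only [hre, him]
    rw [hrt (j * k)]
    apply Complex.ext
    · simp only [Complex.add_re, Complex.ofReal_re, Complex.mul_re, Complex.I_re, mul_zero,
        Complex.ofReal_im, Complex.I_im, zero_mul, sub_zero, add_zero, mul_one, Complex.add_im,
        Complex.mul_im, zero_add]
      linear_combination 0 * hε
    · simp only [Complex.add_re, Complex.ofReal_re, Complex.mul_re, Complex.I_re, mul_zero,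
        Complex.ofReal_im, Complex.I_im, zero_mul, sub_zero, add_zero, mul_one, Complex.add_im,
        Complex.mul_im, zero_add]
      linear_combination (Real.sin ((j * k : ℤ) * (2 * Real.pi / M)) * f z.re) * hε
  · intro x
    have h0 : f 0 = 0 := by
      have h3 := hadd 0 0
      simp only [add_zero] at h3
      linarith
    simp [h0]
  · have h0 : f 0 = 0 := by
      have h3 := hadd 0 0
      simp only [add_zero] at h3
      linarith
    simp [h0, h1]

end Q16.SQ
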