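import Pool.Agent.Q201.AR.Stm2

/-! Project AR (helper201), job KDEC: closed classes of relations; decidable in the empty oracle
means computable. -/

set_option autoImplicit false

namespace Pool.Agent.Q25.AR_KDEC

open Q201.AR
open Pool.Agent.Helper578.JD Pool.Agent.Helper578.JD.Oracle

theorem re_of_comp {α : Type} [Primcodable α] {P : α → Prop} (h : ComputablePred P) :
    REPred P ∧ REPred fun a => ¬ P a :=
  ComputablePred.computable_iff_re_compl_re'.1 h

theorem kc_dec (A : Set ℕ) : KC (fun n P => Dec (α := Fin n → ℕ) A P) where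
  comp := fun m n f P hf h => ⟨h.1.comp hf, h.2.comp hf⟩
  dec := fun n P h => ⟨REIn.of_re (re_of_comp h).1, REIn.of_re (re_of_comp h).2⟩
  and := fun n P Q hP hQ => ⟨hP.1.and hQ.1, (hP.2.or hQ.2).of_eq fun a => not_and_or.symm⟩
  or := fun n P Q hP hQ => ⟨hP.1.or hQ.1, (hP.2.and hQ.2).of_eq fun a => not_or.symm⟩

theorem kc_co (A : Set ℕ) : KC (fun n P => Co (α := Fin n → ℕ) A P) where
  comp := fun m n f P hf h => REIn.comp (S := fun a => ¬ P a) h hf
  dec := fun n P h => REIn.of_re (re_of_comp h).2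
  and := fun n P Q hP hQ => (REIn.or hP hQ).of_eq fun a => not_and_or.symm
  or := fun n P Q hP hQ => (REIn.and hP hQ).of_eq fun a => not_or.symm

theorem re_of_empty {α : Type} [Primcodable α] {P : α → Prop} (h : REIn ∅ P) : REPred P := by
  obtain ⟨R, hR, h1⟩ := h
  have h2 : P = fun a => ∃ c : List ℕ × List ℕ, R a c ∧ c.1 = [] := by
    funext a
    apply propext
    rw [h1 a]
    constructor
    · rintro ⟨c, hc, hok⟩
      refine ⟨c, hc, ?_⟩
      rw [List.eq_nil_iff_forall_not_mem]
      exact fun x hx => hok.1 x hx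
    · rintro ⟨c, hc, hok⟩
      refine ⟨c, hc, ?_, fun x _ hx => hx⟩
      intro x hx
      rw [hok] at hx
      exact absurd hx (List.not_mem_nil)
  rw [h2]
  refine RE.ex (p := fun (a : α) (c : List ℕ × List ℕ) => R a c ∧ c.1 = []) ?_
  exact RE.and hR (RE.eq (by fun_prop) (by fun_prop))

theorem t_KDEC : S_KDEC := by
  refine ⟨kc_dec, kc_co, ?_⟩
  intro n P
  constructor
  · rintro ⟨h1, h2⟩
    exact ComputablePred.computable_iff_re_compl_re'.2 ⟨re_of_empty h1, re_of_empty h2⟩
  · intro h
    exact ⟨REIn.of_re (re_of_comp h).1, REIn.of_re (re_of_comp h).2⟩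

end Pool.Agent.Q25.AR_KDEC
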