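import Pool.Agent.Q201.AR.Stm3

set_option autoImplicit false

/-!
Project AR, job COMPILE: every Mathlib formula of arithmetic has a code.
-/

open FirstOrder FirstOrder.Language Pool.Agent.Helper227.EN Q201.AR

namespace Pool.Agent.Q25.AR_COMPILE

/-- the assignment of the free and the bound variables given by `e` -/
def asg {M : Type} (n m : ℕ) (e : ℕ → M) : Fin n ⊕ Fin m → M :=
  Sum.elim (fun i : Fin n => e i) (fun j : Fin m => e (n + j))

theorem asg_congr {M : Type} {n m : ℕ} {e e' : ℕ → M} (h : ∀ i, i < n + m → e' i = e i) :
    asg n m e' = asg n m e := by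
  funext s
  rcases s with i | j
  · simp only [asg, Sum.elim_inl]
    exact h _ (by have := i.2; omega)
  · simp only [asg, Sum.elim_inr]
    exact h _ (by have := j.2; omega)

theorem upd_of_lt {M : Type} {e : ℕ → M} {i k : ℕ} (x : M) (h : i < k) :
    Function.update e k x i = e i := Function.update_of_ne (by omega) _ _

/-- terms -/
theorem term_code (n m : ℕ) (t : LA.Term (Fin n ⊕ Fin m)) :
    ∀ k : ℕ, n + m ≤ k → ∃ c : ℕ, ∀ (M : Type) [LA.Structure M] (e : ℕ → M),
      Sat M c e ↔ t.realize (asg n m e) = e k := by
  induction t with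
  | var s =>
    intro k _
    rcases s with i | j
    · refine ⟨ceq i k, fun M _ e => ?_⟩
      rw [Sat_ceq]
      simp only [Term.realize, asg, Sum.elim_inl]
    · refine ⟨ceq (n + j) k, fun M _ e => ?_⟩
      rw [Sat_ceq]
      simp only [Term.realize, asg, Sum.elim_inr]
  | @func l f ts ih =>
    intro k hk
    cases f with
    | zero =>
      refine ⟨cz k, fun M _ e => ?_⟩
      rw [Sat_cz, Term.realize_func]
      have : (fun i : Fin 0 => (ts i).realize (asg n m e)) = ![] := Subsingleton.elim _ _
      rw [this]
    | one =>
      refine ⟨co k, fun M _ e => ?_⟩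
      rw [Sat_co, Term.realize_func]
      have : (fun i : Fin 0 => (ts i).realize (asg n m e)) = ![] := Subsingleton.elim _ _
      rw [this]
    | add =>
      obtain ⟨c1, h1⟩ := ih 0 (k + 1) (by omega)
      obtain ⟨c2, h2⟩ := ih 1 (k + 2) (by omega)
      refine ⟨cex (k + 1) (cex (k + 2) (cand c1 (cand c2 (cad (k + 1) (k + 2) k)))),
        fun M _ e => ?_⟩
      rw [Sat_cex]
      have key : ∀ x y : M,
          (Sat M (cand c1 (cand c2 (cad (k + 1) (k + 2) k)))
            (Function.update (Function.update e (k + 1) x) (k + 2) y)) ↔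
          ((ts 0).realize (asg n m e) = x ∧ (ts 1).realize (asg n m e) = y ∧
            Structure.funMap (L := LA) AF.add ![x, y] = e k) := by
        intro x y
        rw [Sat_cand, Sat_cand, h1, h2, Sat_cad]
        have e1 : Function.update (Function.update e (k + 1) x) (k + 2) y (k + 1) = x := by
          rw [upd_of_lt y (by omega), Function.update_self]
        have e2 : Function.update (Function.update e (k + 1) x) (k + 2) y (k + 2) = y := by
          rw [Function.update_self]
        have e3 : Function.update (Function.update e (k + 1) x) (k + 2) y k = e k := by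
          rw [upd_of_lt y (by omega), upd_of_lt x (by omega)]
        have e4 : asg n m (Function.update (Function.update e (k + 1) x) (k + 2) y) = asg n m e :=
          asg_congr fun i hi => by rw [upd_of_lt y (by omega), upd_of_lt x (by omega)]
        rw [e1, e2, e3, e4]
      have hv : (fun i : Fin 2 => (ts i).realize (asg n m e)) =
          ![(ts 0).realize (asg n m e), (ts 1).realize (asg n m e)] := by
        funext i
        fin_cases i <;> rfl
      rw [Term.realize_func, hv]
      constructor
      · rintro ⟨x, hx⟩
        rw [Sat_cex] at hx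
        obtain ⟨y, hy⟩ := hx
        rw [key] at hy
        rw [hy.1, hy.2.1]
        exact hy.2.2
      · intro h
        refine ⟨_, (Sat_cex _ _ _).2 ⟨_, (key _ _).2 ⟨rfl, rfl, h⟩⟩⟩
    | mul =>
      obtain ⟨c1, h1⟩ := ih 0 (k + 1) (by omega)
      obtain ⟨c2, h2⟩ := ih 1 (k + 2) (by omega)
      refine ⟨cex (k + 1) (cex (k + 2) (cand c1 (cand c2 (cml (k + 1) (k + 2) k)))),
        fun M _ e => ?_⟩
      rw [Sat_cex]
      have key : ∀ x y : M,
          (Sat M (cand c1 (cand c2 (cml (k + 1) (k + 2) k)))
            (Function.update (Function.update e (k + 1) x) (k + 2) y)) ↔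
          ((ts 0).realize (asg n m e) = x ∧ (ts 1).realize (asg n m e) = y ∧
            Structure.funMap (L := LA) AF.mul ![x, y] = e k) := by
        intro x y
        rw [Sat_cand, Sat_cand, h1, h2, Sat_cml]
        have e1 : Function.update (Function.update e (k + 1) x) (k + 2) y (k + 1) = x := by
          rw [upd_of_lt y (by omega), Function.update_self]
        have e2 : Function.update (Function.update e (k + 1) x) (k + 2) y (k + 2) = y := by
          rw [Function.update_self]
        have e3 : Function.update (Function.update e (k + 1) x) (k + 2) y k = e k := by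
          rw [upd_of_lt y (by omega), upd_of_lt x (by omega)]
        have e4 : asg n m (Function.update (Function.update e (k + 1) x) (k + 2) y) = asg n m e :=
          asg_congr fun i hi => by rw [upd_of_lt y (by omega), upd_of_lt x (by omega)]
        rw [e1, e2, e3, e4]
      have hv : (fun i : Fin 2 => (ts i).realize (asg n m e)) =
          ![(ts 0).realize (asg n m e), (ts 1).realize (asg n m e)] := by
        funext i
        fin_cases i <;> rfl
      rw [Term.realize_func, hv]
      constructor
      · rintro ⟨x, hx⟩
        rw [Sat_cex] at hx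
        obtain ⟨y, hy⟩ := hx
        rw [key] at hy
        rw [hy.1, hy.2.1]
        exact hy.2.2
      · intro h
        refine ⟨_, (Sat_cex _ _ _).2 ⟨_, (key _ _).2 ⟨rfl, rfl, h⟩⟩⟩

/-- bounded formulas -/
theorem bd_code (n : ℕ) {m : ℕ} (φ : LA.BoundedFormula (Fin n) m) :
    ∃ c : ℕ, ∀ (M : Type) [LA.Structure M] (e : ℕ → M),
      Sat M c e ↔ φ.Realize (fun i : Fin n => e i) (fun j : Fin m => e (n + j)) := by
  induction φ with
  | falsum =>
    refine ⟨cneg (ceq 0 0), fun M _ e => ?_⟩
    rw [Sat_cneg, Sat_ceq]
    simp [BoundedFormula.Realize]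
  | @equal m t₁ t₂ =>
    obtain ⟨c1, h1⟩ := term_code n m t₁ (n + m) le_rfl
    obtain ⟨c2, h2⟩ := term_code n m t₂ (n + m) le_rfl
    refine ⟨cex (n + m) (cand c1 c2), fun M _ e => ?_⟩
    have key : ∀ x : M, Sat M (cand c1 c2) (Function.update e (n + m) x) ↔
        t₁.realize (asg n m e) = x ∧ t₂.realize (asg n m e) = x := by
      intro x
      rw [Sat_cand, h1, h2, Function.update_self,
        asg_congr (e := e) (e' := Function.update e (n + m) x) fun i hi => upd_of_lt x hi]
    rw [Sat_cex]
    simp only [key, BoundedFormula.Realize]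
    constructor
    · rintro ⟨x, hx, hy⟩
      exact hx.trans hy.symm
    · intro h
      exact ⟨_, rfl, h.symm⟩
  | @rel m l R ts =>
    cases R with
    | lt =>
      obtain ⟨c1, h1⟩ := term_code n m (ts 0) (n + m) le_rfl
      obtain ⟨c2, h2⟩ := term_code n m (ts 1) (n + m + 1) (by omega)
      refine ⟨cex (n + m) (cand c1 (cex (n + m + 1) (cand c2 (clt (n + m) (n + m + 1))))),
        fun M _ e => ?_⟩
      have key : ∀ x y : M, Sat M (cand c2 (clt (n + m) (n + m + 1)))
            (Function.update (Function.update e (n + m) x) (n + m + 1) y) ↔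
          ((ts 1).realize (asg n m e) = y ∧ Structure.RelMap (L := LA) AR.lt ![x, y]) := by
        intro x y
        rw [Sat_cand, h2, Sat_clt]
        have e1 : Function.update (Function.update e (n + m) x) (n + m + 1) y (n + m) = x := by
          rw [upd_of_lt y (by omega), Function.update_self]
        have e2 : Function.update (Function.update e (n + m) x) (n + m + 1) y (n + m + 1) = y := by
          rw [Function.update_self]
        have e4 : asg n m (Function.update (Function.update e (n + m) x) (n + m + 1) y) =
            asg n m e :=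
          asg_congr fun i hi => by rw [upd_of_lt y (by omega), upd_of_lt x (by omega)]
        rw [e1, e2, e4]
      have key1 : ∀ x : M, Sat M c1 (Function.update e (n + m) x) ↔
          (ts 0).realize (asg n m e) = x := by
        intro x
        rw [h1, Function.update_self,
          asg_congr (e := e) (e' := Function.update e (n + m) x) fun i hi => upd_of_lt x hi]
      have hv : (fun i : Fin 2 => (ts i).realize (asg n m e)) =
          ![(ts 0).realize (asg n m e), (ts 1).realize (asg n m e)] := by
        funext i
        fin_cases i <;> rfl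
      have hr : (BoundedFormula.rel AR.lt ts : LA.BoundedFormula (Fin n) m).Realize
          (fun i : Fin n => e i) (fun j : Fin m => e (n + j)) ↔
          Structure.RelMap (L := LA) AR.lt
            ![(ts 0).realize (asg n m e), (ts 1).realize (asg n m e)] := by
        rw [← hv]
        exact Iff.rfl
      rw [hr, Sat_cex]
      constructor
      · rintro ⟨x, hx⟩
        rw [Sat_cand, key1, Sat_cex] at hx
        obtain ⟨hx, y, hy⟩ := hx
        rw [key] at hy
        rw [hx, hy.1]
        exact hy.2
      · intro h
        refine ⟨_, (Sat_cand _ _ _).2 ⟨(key1 _).2 rfl, (Sat_cex _ _ _).2 ⟨_, (key _ _).2 ⟨rfl, h⟩⟩⟩⟩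
  | imp f₁ f₂ ih₁ ih₂ =>
    obtain ⟨c1, h1⟩ := ih₁
    obtain ⟨c2, h2⟩ := ih₂
    refine ⟨cneg (cand c1 (cneg c2)), fun M _ e => ?_⟩
    rw [Sat_cneg, Sat_cand, Sat_cneg, h1, h2, BoundedFormula.realize_imp]
    tauto
  | @all m f ih =>
    obtain ⟨c, h⟩ := ih
    refine ⟨cneg (cex (n + m) (cneg c)), fun M _ e => ?_⟩
    rw [Sat_cneg, Sat_cex, BoundedFormula.realize_all]
    have key : ∀ x : M, Sat M (cneg c) (Function.update e (n + m) x) ↔
        ¬ f.Realize (fun i : Fin n => e i) (Fin.snoc (fun j : Fin m => e (n + j)) x) := by
      intro x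
      rw [Sat_cneg, h]
      have e1 : (fun i : Fin n => Function.update e (n + m) x i) = fun i : Fin n => e i := by
        funext i
        exact upd_of_lt x (by have := i.2; omega)
      have e2 : (fun j : Fin (m + 1) => Function.update e (n + m) x (n + j)) =
          Fin.snoc (fun j : Fin m => e (n + j)) x := by
        funext j
        refine Fin.lastCases ?_ (fun i => ?_) j
        · rw [Fin.snoc_last, Fin.val_last, Function.update_self]
        · rw [Fin.snoc_castSucc, Fin.val_castSucc]
          exact upd_of_lt x (by have := i.2; omega)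
      rw [e1, e2]
    simp only [key]
    push Not
    rfl

theorem t_COMPILE : S_COMPILE := by
  intro n φ
  obtain ⟨c, h⟩ := bd_code n φ
  refine ⟨c, fun M _ e => ?_⟩
  rw [h]
  unfold Formula.Realize
  rw [Subsingleton.elim (fun j : Fin 0 => e (n + j)) (default : Fin 0 → M)]

end Pool.Agent.Q25.AR_COMPILE
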