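import Pool.Agent.Q127.KI.Stm2

/-!
Project KI2, job FIX: orbits which converge to a point.
-/

set_option autoImplicit false

namespace Pool.Agent.Q25.KI2_FIX

open MeasureTheory Filter Topology Pool.Agent.Q127.KI

theorem upperFreq_le_one {M : Type} (f : M → M) (x : M) (A : Set M) : upperFreq f x A ≤ 1 := by
  classical
  unfold upperFreq
  refine limsup_le_of_le (by isBoundedDefault) (Eventually.of_forall fun n => ?_)
  have h : (((Finset.range n).filter (fun j => f^[j] x ∈ A)).card : ENNReal) ≤ (n : ENNReal) := by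
    have := Finset.card_filter_le (Finset.range n) (fun j => f^[j] x ∈ A)
    rw [Finset.card_range] at this
    exact_mod_cast this
  refine le_trans (ENNReal.div_le_div_right ?_ _) (ENNReal.div_self_le_one (a := (n : ENNReal)))
  convert h

theorem upperFreq_zero {M : Type} (f : M → M) (x : M) (A : Set M) (n0 : ℕ)
    (h : ∀ n, n0 ≤ n → f^[n] x ∉ A) : upperFreq f x A = 0 := by
  classical
  unfold upperFreq
  have hc : ∀ n, (((Finset.range n).filter (fun j => f^[j] x ∈ A)).card : ENNReal) ≤ (n0 : ENNReal) := by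
    intro n
    have : (Finset.range n).filter (fun j => f^[j] x ∈ A) ⊆ Finset.range n0 := by
      intro j hj
      rw [Finset.mem_filter] at hj
      rw [Finset.mem_range]
      by_contra hcon
      exact h j (not_lt.1 hcon) hj.2
    have h2 := Finset.card_le_card this
    rw [Finset.card_range] at h2
    exact_mod_cast h2
  have ht : Tendsto (fun n : ℕ => (n0 : ENNReal) * (n : ENNReal)⁻¹) atTop (𝓝 0) := by
    have := ENNReal.Tendsto.const_mul (a := (n0 : ENNReal)) ENNReal.tendsto_inv_nat_nhds_zero
      (Or.inr (ENNReal.natCast_ne_top n0))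
    rwa [mul_zero] at this
  have hs : Tendsto (fun n : ℕ => (((Finset.range n).filter (fun j => f^[j] x ∈ A)).card : ENNReal) / n)
      atTop (𝓝 0) := by
    refine tendsto_of_tendsto_of_tendsto_of_le_of_le tendsto_const_nhds ht (fun n => zero_le) ?_
    intro n
    show _ / _ ≤ _ * _
    rw [ENNReal.div_eq_inv_mul, mul_comm]
    exact mul_le_mul_left (hc n) _
  have := hs.limsup_eq
  convert this

theorem fix : S_fix := by
  classical
  intro M _ _ f x z hx
  unfold orbitMass
  refine iSup₂_le fun r hr => ?_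
  -- the cover
  obtain ⟨t, htC, htf, htcov⟩ := ((Metric.isOpen_ball (x := z) (ε := r / 2)).isClosed_compl.isCompact).finite_cover_balls
    (show 0 < r / 8 by linarith)
  obtain ⟨n0, hn0⟩ := Metric.tendsto_atTop.1 hx (r / 4) (by linarith)
  let l : List M := htf.toFinset.toList
  have hl : ∀ y, y ∈ l ↔ y ∈ t := by
    intro y
    simp [l]
  let I : ℕ → Set M := fun i => match i with
    | 0 => Metric.ball z (r / 2)
    | i + 1 => ⋃ y ∈ l[i]?, Metric.ball y (r / 8)
  have hI : ∀ i, I (i + 1) = ∅ ∨ ∃ y ∈ t, I (i + 1) = Metric.ball y (r / 8) := by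
    intro i
    show (⋃ y ∈ l[i]?, Metric.ball y (r / 8)) = ∅ ∨ ∃ y ∈ t, (⋃ y ∈ l[i]?, Metric.ball y (r / 8)) = Metric.ball y (r / 8)
    rcases hi : l[i]? with _ | y
    · left; simp
    · right
      exact ⟨y, (hl y).1 (List.mem_of_getElem? hi), by simp⟩
  have hop : ∀ i, IsOpen (I i) ∧ ∀ a ∈ I i, ∀ b ∈ I i, dist a b ≤ r := by
    intro i
    rcases i with _ | i
    · refine ⟨Metric.isOpen_ball, fun a ha b hb => ?_⟩
      have h1 : dist a z < r / 2 := ha
      have h2 : dist b z < r / 2 := hb
      have := dist_triangle_right a b z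
      linarith
    · rcases hI i with h | ⟨y, _, h⟩
      · rw [h]
        exact ⟨isOpen_empty, fun a ha => absurd ha (Set.notMem_empty a)⟩
      · rw [h]
        refine ⟨Metric.isOpen_ball, fun a ha b hb => ?_⟩
        have h1 : dist a y < r / 8 := ha
        have h2 : dist b y < r / 8 := hb
        have := dist_triangle_right a b y
        linarith
  have hcov : (Set.univ : Set M) ⊆ ⋃ i, I i := by
    intro p _
    by_cases hp : p ∈ Metric.ball z (r / 2)
    · exact Set.mem_iUnion.2 ⟨0, hp⟩
    · obtain ⟨y, hy, hpy⟩ := Set.mem_iUnion₂.1 (htcov hp)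
      obtain ⟨i, hi⟩ := List.mem_iff_getElem?.1 ((hl y).2 hy)
      refine Set.mem_iUnion.2 ⟨i + 1, ?_⟩
      show p ∈ ⋃ y ∈ l[i]?, Metric.ball y (r / 8)
      rw [hi]
      simpa using hpy
  unfold coverMass
  refine iInf₂_le_of_le I hop (iInf_le_of_le hcov ?_)
  have hterm : ∀ i, upperFreq f x (I i) ≤ if i = 0 then 1 else 0 := by
    intro i
    rcases i with _ | i
    · simpa using upperFreq_le_one f x (I 0)
    · rw [if_neg (Nat.succ_ne_zero i), nonpos_iff_eq_zero]
      rcases hI i with h | ⟨y, hy, h⟩
      · rw [h]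
        exact upperFreq_zero f x ∅ 0 fun n _ hn => hn
      · rw [h]
        refine upperFreq_zero f x _ n0 fun n hn hin => ?_
        have h1 := hn0 n hn
        have h2 : dist (f^[n] x) y < r / 8 := hin
        have h3 : y ∉ Metric.ball z (r / 2) := htC hy
        apply h3
        show dist y z < r / 2
        have := dist_triangle_left y z (f^[n] x)
        linarith
  refine (ENNReal.tsum_le_tsum hterm).trans (le_of_eq ?_)
  rw [tsum_ite_eq]

end Pool.Agent.Q25.KI2_FIX
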