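import Pool.Agent.Q61.MH.Stm2

/-!
Project MH, job PKB: `P k k ≤ 0` for `k ≥ 60`.
-/

set_option autoImplicit false

open Real Filter Topology

noncomputable section

namespace Pool.Agent.Q25.MH_PKB

open Pool.Agent.Q61.MH

/-- `log (1 - t) ≤ -t - t²/2` -/
theorem log_one_sub_le {t : ℝ} (h0 : 0 ≤ t) (h1 : t < 1) :
    Real.log (1 - t) ≤ -t - t ^ 2 / 2 := by
  have h := Real.hasSum_pow_div_log_of_abs_lt_one (x := t) (by rw [abs_of_nonneg h0]; exact h1)
  have h2 := sum_le_hasSum (Finset.range 2) (fun i _ => by positivity) h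
  rw [Finset.sum_range_succ, Finset.sum_range_one] at h2
  norm_num at h2
  linarith

theorem log_ratio_le {x : ℝ} (h0 : 0 < x) (h1 : x < 1) :
    Real.log (1 + x) - Real.log (1 - x) ≤ 4 / 3 * x + 2 / 3 * x * (1 - x ^ 2)⁻¹ := by
  have h := Real.hasSum_log_sub_log_of_abs_lt_one (x := x) (by rw [abs_of_pos h0]; exact h1)
  have hx2 : x ^ 2 < 1 := by nlinarith
  have hg : HasSum (fun k : ℕ => (if k = 0 then 4 / 3 * x else 0) + 2 / 3 * x * (x ^ 2) ^ k)
      (4 / 3 * x + 2 / 3 * x * (1 - x ^ 2)⁻¹) :=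
    (hasSum_ite_eq 0 (4 / 3 * x)).add ((hasSum_geometric_of_lt_one (by positivity) hx2).mul_left _)
  refine hasSum_le (fun k => ?_) h hg
  have e : x ^ (2 * k + 1) = x * (x ^ 2) ^ k := by rw [pow_succ, pow_mul]; ring
  rw [e]
  rcases Nat.eq_zero_or_pos k with rfl | hk
  · norm_num
    linarith
  · rw [if_neg (by omega), zero_add]
    have hk' : (1 : ℝ) ≤ k := by exact_mod_cast hk
    have h3 : (1 : ℝ) / (2 * k + 1) ≤ 1 / 3 := by
      apply one_div_le_one_div_of_le (by norm_num)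
      linarith
    have h4 : 0 ≤ x * (x ^ 2) ^ k := by positivity
    nlinarith

/-- `((2k+1)/(2k-1))^k ≤ exp (1 + 1/(11k²))` -/
theorem ratio_le {k : ℕ} (hk : 60 ≤ k) :
    (2 * (k : ℝ) + 1) ^ k ≤ (2 * (k : ℝ) - 1) ^ k * Real.exp (1 + 1 / (11 * (k : ℝ) ^ 2)) := by
  have hk' : (60 : ℝ) ≤ k := by exact_mod_cast hk
  have hp : 0 < 2 * (k : ℝ) - 1 := by linarith
  have hq : 0 < 2 * (k : ℝ) + 1 := by linarith
  have hx0 : 0 < 1 / (2 * (k : ℝ)) := by positivity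
  have hx1 : 1 / (2 * (k : ℝ)) < 1 := by
    rw [div_lt_one (by positivity)]; linarith
  have h := log_ratio_le hx0 hx1
  have e1 : 1 + 1 / (2 * (k : ℝ)) = (2 * (k : ℝ) + 1) / (2 * k) := by field_simp
  have e2 : 1 - 1 / (2 * (k : ℝ)) = (2 * (k : ℝ) - 1) / (2 * k) := by field_simp
  rw [e1, e2, Real.log_div hq.ne' (by positivity), Real.log_div hp.ne' (by positivity)] at h
  have h2 : (k : ℝ) * (4 / 3 * (1 / (2 * (k : ℝ))) + 2 / 3 * (1 / (2 * (k : ℝ))) *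
      (1 - (1 / (2 * (k : ℝ))) ^ 2)⁻¹) ≤ 1 + 1 / (11 * (k : ℝ) ^ 2) := by
    have e3 : (k : ℝ) * (4 / 3 * (1 / (2 * (k : ℝ))) + 2 / 3 * (1 / (2 * (k : ℝ))) *
      (1 - (1 / (2 * (k : ℝ))) ^ 2)⁻¹) = 1 + 1 / (12 * (k : ℝ) ^ 2 - 3) := by
      have h4 : (4 * (k : ℝ) ^ 2 - 1) ≠ 0 := by nlinarith
      have h5 : (12 * (k : ℝ) ^ 2 - 3) ≠ 0 := by nlinarith
      have h6 : (1 - (1 / (2 * (k : ℝ))) ^ 2) = (4 * (k : ℝ) ^ 2 - 1) / (4 * (k : ℝ) ^ 2) := by
        field_simp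
        ring
      have h7 : (12 * (k : ℝ) ^ 2 - 3) = 3 * (4 * (k : ℝ) ^ 2 - 1) := by ring
      have h8 : (k : ℝ) ≠ 0 := by positivity
      rw [h6, inv_div, h7]
      generalize hz : 4 * (k : ℝ) ^ 2 - 1 = z at *
      have h9 : (k : ℝ) ^ 2 = (z + 1) / 4 := by linarith
      field_simp
      rw [h9]
      ring
    rw [e3]
    have : 1 / (12 * (k : ℝ) ^ 2 - 3) ≤ 1 / (11 * (k : ℝ) ^ 2) := by
      apply one_div_le_one_div_of_le (by positivity)
      nlinarith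
    linarith
  have h3 : (k : ℝ) * Real.log (2 * (k : ℝ) + 1) ≤
      (k : ℝ) * Real.log (2 * (k : ℝ) - 1) + (1 + 1 / (11 * (k : ℝ) ^ 2)) := by
    have h0k : (0 : ℝ) ≤ k := by linarith
    have := mul_le_mul_of_nonneg_left h h0k
    nlinarith
  have e4 : (2 * (k : ℝ) + 1) ^ k = Real.exp ((k : ℝ) * Real.log (2 * (k : ℝ) + 1)) := by
    rw [mul_comm (k : ℝ) (Real.log _), ← Real.rpow_def_of_pos hq, Real.rpow_natCast]
  have e5 : (2 * (k : ℝ) - 1) ^ k = Real.exp ((k : ℝ) * Real.log (2 * (k : ℝ) - 1)) := by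
    rw [mul_comm (k : ℝ) (Real.log _), ← Real.rpow_def_of_pos hp, Real.rpow_natCast]
  rw [e4, e5, ← Real.exp_add]
  exact Real.exp_le_exp.2 h3

/-- the exponent -/
def aa (J u : ℝ) : ℝ := J * u - J ^ 2 * u / 2 + J ^ 2 * u ^ 2 / 2

/-- the terms -/
theorem term_le {k j : ℕ} (hj : j < k) :
    (((k - j : ℕ) : ℝ)) ^ k ≤ ((k : ℝ) + 1) ^ k *
      Real.exp (-((j : ℝ) + 1) + aa ((j : ℝ) + 1) (1 / ((k : ℝ) + 1))) := by
  have hn : (0 : ℝ) < (k : ℝ) + 1 := by positivity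
  have hjk : (j : ℝ) + 1 ≤ k := by exact_mod_cast hj
  have hc : ((k - j : ℕ) : ℝ) = ((k : ℝ) + 1) * (1 - ((j : ℝ) + 1) / ((k : ℝ) + 1)) := by
    rw [Nat.cast_sub hj.le]
    field_simp
    ring
  have ht0 : 0 ≤ ((j : ℝ) + 1) / ((k : ℝ) + 1) := by positivity
  have ht1 : ((j : ℝ) + 1) / ((k : ℝ) + 1) < 1 := by
    rw [div_lt_one hn]; linarith
  rw [hc, mul_pow]
  apply mul_le_mul_of_nonneg_left _ (by positivity)
  have hpos : 0 < 1 - ((j : ℝ) + 1) / ((k : ℝ) + 1) := by linarith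
  have e5 : (1 - ((j : ℝ) + 1) / ((k : ℝ) + 1)) ^ k =
      Real.exp ((k : ℝ) * Real.log (1 - ((j : ℝ) + 1) / ((k : ℝ) + 1))) := by
    rw [mul_comm, ← Real.rpow_def_of_pos hpos, Real.rpow_natCast]
  rw [e5]
  apply Real.exp_le_exp.2
  have h := mul_le_mul_of_nonneg_left (log_one_sub_le ht0 ht1) (Nat.cast_nonneg k : (0 : ℝ) ≤ k)
  refine h.trans (le_of_eq ?_)
  unfold aa
  field_simp
  ring

theorem exp_le_quad {a : ℝ} (h : |a| ≤ 1) : Real.exp a ≤ 1 + (a + a ^ 2) := by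
  have := abs_le.1 (Real.abs_exp_sub_one_sub_id_le h)
  linarith [this.2]

/-- the first six terms -/
theorem quad_le {J u c e : ℝ} (hu0 : 0 < u) (hu : u ≤ 1 / 61) (hJ0 : 1 ≤ J) (hJ : J ≤ 6)
    (hc : c = J - J ^ 2 / 2)
    (he : ∀ v : ℝ, 0 < v → v ≤ 1 / 61 → J ^ 2 / 2 + (c + J ^ 2 / 2 * v) ^ 2 ≤ e) :
    Real.exp (-J + aa J u) ≤ Real.exp (-J) * (1 + (c * u + e * u ^ 2)) := by
  rw [Real.exp_add]
  apply mul_le_mul_of_nonneg_left _ (Real.exp_pos _).le
  have ha : aa J u = c * u + J ^ 2 / 2 * u ^ 2 := by rw [hc]; unfold aa; ring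
  have hJ2 : J ^ 2 ≤ 36 := by nlinarith
  have hJ20 : 0 ≤ J ^ 2 := sq_nonneg J
  have hcl : -12 ≤ c := by rw [hc]; nlinarith
  have hcu : c ≤ 1 / 2 := by rw [hc]; nlinarith [sq_nonneg (J - 1)]
  have h1 : |aa J u| ≤ 1 := by
    rw [ha, abs_le]
    have hu2 : u ^ 2 ≤ (1 / 61) ^ 2 := by nlinarith
    have h2 : J ^ 2 / 2 * u ^ 2 ≤ 18 * (1 / 61) ^ 2 := by nlinarith [sq_nonneg u]
    have h3 : 0 ≤ J ^ 2 / 2 * u ^ 2 := by positivity
    have h4 : -12 * (1 / 61) ≤ c * u := by nlinarith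
    have h5 : c * u ≤ 1 / 2 * (1 / 61) := by nlinarith
    constructor
    · linarith
    · linarith
  refine (exp_le_quad h1).trans ?_
  have h6 := mul_le_mul_of_nonneg_right (he u hu0 hu) (sq_nonneg u)
  rw [ha]
  nlinarith

theorem exp_neg_nat (j : ℕ) : Real.exp (-((j : ℝ) + 1)) = Real.exp (-1) ^ (j + 1) := by
  rw [← Real.exp_nat_mul]
  push_cast
  ring_nf

theorem tail_le {J u : ℝ} (hu0 : 0 < u) (hu : u ≤ 1 / 61) (hJ : 3 ≤ J) :
    Real.exp (-J + aa J u) ≤ Real.exp (-J) := by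
  apply Real.exp_le_exp.2
  have h : aa J u = J * u * (1 - J * (1 - u) / 2) := by unfold aa; ring
  have h2 : 1 - J * (1 - u) / 2 ≤ 0 := by nlinarith
  have h3 : 0 ≤ J * u := by positivity
  have := mul_nonpos_of_nonneg_of_nonpos h3 h2
  rw [h]
  linarith

theorem sum_bound {k : ℕ} (hk : 60 ≤ k) :
    ∑ i ∈ Finset.range k, ((i : ℝ) + 1) ^ k ≤
      ((k : ℝ) + 1) ^ k * (1 / (Real.exp 1 - 1) - 1 / (11 * (k : ℝ) ^ 2)) := by
  have hk' : (60 : ℝ) ≤ k := by exact_mod_cast hk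
  set u : ℝ := 1 / ((k : ℝ) + 1) with hu
  have hu0 : 0 < u := by positivity
  have hu1 : u ≤ 1 / 61 := by
    rw [hu]
    apply one_div_le_one_div_of_le (by norm_num)
    linarith
  set x : ℝ := Real.exp (-1) with hx
  have hx0 : 0 < x := Real.exp_pos _
  have hxe : x * Real.exp 1 = 1 := by rw [hx, ← Real.exp_add]; norm_num
  have he1 := Real.exp_one_gt_d9
  have he2 := Real.exp_one_lt_d9
  have hxl : 0.3678794 < x := by
    by_contra hcon
    push Not at hcon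
    nlinarith
  have hxu : x < 0.3678795 := by
    by_contra hcon
    push Not at hcon
    nlinarith
  -- reflect the sum
  have hrefl : ∑ i ∈ Finset.range k, ((i : ℝ) + 1) ^ k =
      ∑ j ∈ Finset.range k, (((k - j : ℕ) : ℝ)) ^ k := by
    rw [← Finset.sum_range_reflect]
    apply Finset.sum_congr rfl
    intro j hj
    rw [Finset.mem_range] at hj
    have : k - 1 - j + 1 = k - j := by omega
    rw [← this]
    push_cast
    rfl
  rw [hrefl]
  have h1 : ∑ j ∈ Finset.range k, (((k - j : ℕ) : ℝ)) ^ k ≤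
      ((k : ℝ) + 1) ^ k * ∑ j ∈ Finset.range k, Real.exp (-((j : ℝ) + 1) + aa ((j : ℝ) + 1) u) := by
    rw [Finset.mul_sum]
    apply Finset.sum_le_sum
    intro j hj
    exact term_le (Finset.mem_range.1 hj)
  refine h1.trans (mul_le_mul_of_nonneg_left ?_ (by positivity))
  obtain ⟨m, rfl⟩ : ∃ m, k = 6 + m := ⟨k - 6, by omega⟩
  rw [Finset.sum_range_add]
  have htail : ∑ j ∈ Finset.range m, Real.exp (-(((6 + j : ℕ) : ℝ) + 1) +
      aa (((6 + j : ℕ) : ℝ) + 1) u) ≤ x ^ 7 / (1 - x) := by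
    have h2 : ∀ j ∈ Finset.range m, Real.exp (-(((6 + j : ℕ) : ℝ) + 1) +
      aa (((6 + j : ℕ) : ℝ) + 1) u) ≤ x ^ 7 * x ^ j := by
      intro j _
      refine (tail_le hu0 hu1 ?_).trans (le_of_eq ?_)
      · push_cast
        have : (0 : ℝ) ≤ j := Nat.cast_nonneg j
        linarith
      · rw [exp_neg_nat, ← hx, ← pow_add]
        congr 1
        omega
    refine (Finset.sum_le_sum h2).trans ?_
    rw [← Finset.mul_sum]
    have hgs : ∑ j ∈ Finset.range m, x ^ j ≤ (1 - x)⁻¹ :=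
      sum_le_hasSum _ (fun i _ => by positivity)
        (hasSum_geometric_of_lt_one hx0.le (by linarith))
    rw [div_eq_mul_inv]
    exact mul_le_mul_of_nonneg_left hgs (by positivity)
  have hfst : ∀ (j : ℕ) (c e : ℝ), j < 6 → c = ((j : ℝ) + 1) - ((j : ℝ) + 1) ^ 2 / 2 →
      (∀ v : ℝ, 0 < v → v ≤ 1 / 61 →
        ((j : ℝ) + 1) ^ 2 / 2 + (c + ((j : ℝ) + 1) ^ 2 / 2 * v) ^ 2 ≤ e) →
      Real.exp (-((j : ℝ) + 1) + aa ((j : ℝ) + 1) u) ≤ x ^ (j + 1) * (1 + (c * u + e * u ^ 2)) := by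
    intro j c e hj hc he
    have hj' : (j : ℝ) + 1 ≤ 6 := by exact_mod_cast hj
    have hj0 : (0 : ℝ) ≤ j := Nat.cast_nonneg j
    have := quad_le (J := (j : ℝ) + 1) (c := c) (e := e) hu0 hu1 (by linarith) hj' hc he
    rwa [exp_neg_nat, ← hx] at this
  have f0 := hfst 0 (1 / 2) 0.76 (by norm_num) (by norm_num) (by
    intro v hv hv'; norm_num; nlinarith)
  have f1 := hfst 1 0 2.01 (by norm_num) (by norm_num) (by
    intro v hv hv'; norm_num; nlinarith)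
  have f2 := hfst 2 (-3 / 2) 6.75 (by norm_num) (by norm_num) (by
    intro v hv hv'; norm_num; nlinarith)
  have f3 := hfst 3 (-4) 24 (by norm_num) (by norm_num) (by
    intro v hv hv'; norm_num; nlinarith)
  have f4 := hfst 4 (-15 / 2) 68.75 (by norm_num) (by norm_num) (by
    intro v hv hv'; norm_num; nlinarith)
  have f5 := hfst 5 (-12) 162 (by norm_num) (by norm_num) (by
    intro v hv hv'; norm_num; nlinarith)
  have hsum6 : ∑ j ∈ Finset.range 6, Real.exp (-((j : ℝ) + 1) + aa ((j : ℝ) + 1) u) ≤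
      (x + x ^ 2 + x ^ 3 + x ^ 4 + x ^ 5 + x ^ 6) +
      u * (1 / 2 * x - 3 / 2 * x ^ 3 - 4 * x ^ 4 - 15 / 2 * x ^ 5 - 12 * x ^ 6) +
      u ^ 2 * (0.76 * x + 2.01 * x ^ 2 + 6.75 * x ^ 3 + 24 * x ^ 4 + 68.75 * x ^ 5 +
        162 * x ^ 6) := by
    simp only [Finset.sum_range_succ, Finset.sum_range_zero, zero_add]
    refine (add_le_add (add_le_add (add_le_add (add_le_add (add_le_add f0 f1) f2) f3) f4)
      f5).trans (le_of_eq ?_)
    ring
  -- numerical bounds for the powers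
  have b2l : 0.135335 < x ^ 2 := by nlinarith
  have b2u : x ^ 2 < 0.135336 := by nlinarith
  have b3l : 0.049786 < x ^ 3 := by nlinarith
  have b3u : x ^ 3 < 0.049788 := by nlinarith
  have b4l : 0.018315 < x ^ 4 := by nlinarith
  have b4u : x ^ 4 < 0.018317 := by nlinarith
  have b5l : 0.006737 < x ^ 5 := by nlinarith
  have b5u : x ^ 5 < 0.006739 := by nlinarith
  have b6l : 0.002478 < x ^ 6 := by nlinarith
  have b6u : x ^ 6 < 0.002480 := by nlinarith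
  have hC : 1 / 2 * x - 3 / 2 * x ^ 3 - 4 * x ^ 4 - 15 / 2 * x ^ 5 - 12 * x ^ 6 ≤ -0.044 := by
    linarith
  have hE : 0.76 * x + 2.01 * x ^ 2 + 6.75 * x ^ 3 + 24 * x ^ 4 + 68.75 * x ^ 5 + 162 * x ^ 6 ≤
      2.2 := by
    linarith
  have hh : 1 / (11 * ((6 + m : ℕ) : ℝ) ^ 2) ≤ 0.1 * u ^ 2 := by
    rw [hu, div_pow, one_pow, ← mul_div_assoc, div_le_div_iff₀ (by positivity) (by positivity)]
    nlinarith
  have hgeo : 1 / (Real.exp 1 - 1) = (x + x ^ 2 + x ^ 3 + x ^ 4 + x ^ 5 + x ^ 6) +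
      x ^ 7 / (1 - x) := by
    have h9 : (1 - x) ≠ 0 := by linarith
    have h10 : Real.exp 1 = 1 / x := by field_simp; linarith
    rw [h10]
    have h11 : 1 / x - 1 = (1 - x) / x := by field_simp
    rw [h11]
    field_simp
    ring
  have hmain : u * (1 / 2 * x - 3 / 2 * x ^ 3 - 4 * x ^ 4 - 15 / 2 * x ^ 5 - 12 * x ^ 6) +
      u ^ 2 * (0.76 * x + 2.01 * x ^ 2 + 6.75 * x ^ 3 + 24 * x ^ 4 + 68.75 * x ^ 5 +
        162 * x ^ 6) ≤ - (0.1 * u ^ 2) := by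
    have m1 := mul_le_mul_of_nonneg_left hC hu0.le
    have m2 := mul_le_mul_of_nonneg_left hE (sq_nonneg u)
    nlinarith
  linarith

theorem pkb : S_pkb := by
  intro k hk
  have hk' : (60 : ℝ) ≤ k := by exact_mod_cast hk
  unfold P S
  simp only [Real.rpow_natCast]
  rw [Finset.sum_range_succ]
  set Sk := ∑ i ∈ Finset.range k, ((i : ℝ) + 1) ^ k with hSk
  set A := (2 * (k : ℝ) - 1) ^ k with hA
  set N := ((k : ℝ) + 1) ^ k with hN
  set h : ℝ := 1 / (11 * (k : ℝ) ^ 2) with hh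
  have hA0 : 0 < A := pow_pos (by linarith) _
  have hN0 : 0 < N := pow_pos (by linarith) _
  have hS0 : 0 ≤ Sk := Finset.sum_nonneg fun i _ => by positivity
  have hh0 : 0 < h := by positivity
  have hh1 : h ≤ 1 / 39600 := by
    rw [hh]
    apply one_div_le_one_div_of_le (by norm_num)
    nlinarith
  have h1 : (2 * (k : ℝ) + 1) ^ k ≤ A * Real.exp (1 + h) := ratio_le hk
  have h2 : Sk ≤ N * (1 / (Real.exp 1 - 1) - h) := sum_bound hk
  have he1 := Real.exp_one_gt_d9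
  have he2 := Real.exp_one_lt_d9
  have hR : Real.exp (1 + h) ≤ Real.exp 1 * (1 + (h + h ^ 2)) := by
    rw [Real.exp_add]
    exact mul_le_mul_of_nonneg_left (exp_le_quad (by rw [abs_of_pos hh0]; linarith))
      (Real.exp_pos _).le
  have hR1 : 1 ≤ Real.exp (1 + h) := Real.one_le_exp (by linarith)
  set D := Real.exp 1 - 1 with hD
  have hD1 : 1.71828 < D := by rw [hD]; linarith
  have hprod : (1 / D - h) * (Real.exp (1 + h) - 1) ≤ 1 := by
    have h3 : 0 ≤ 1 / D - h := by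
      have hDu : D < 2 := by rw [hD]; linarith
      have : 1 / 2 < 1 / D := one_div_lt_one_div_of_lt (by linarith) hDu
      linarith
    have h4 : Real.exp (1 + h) - 1 ≤ D + (D + 1) * (h + h ^ 2) := by
      have : Real.exp 1 = D + 1 := by rw [hD]; ring
      rw [this] at hR
      nlinarith
    refine (mul_le_mul_of_nonneg_left h4 h3).trans ?_
    have hD0 : 0 < D := by linarith
    have h5 : (1 / D - h) * (D + (D + 1) * (h + h ^ 2)) =
        1 + h / D * ((D + 1) * (1 + h) - D ^ 2 - D * (D + 1) * (h + h ^ 2)) := by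
      field_simp
      ring
    rw [h5]
    have h6 : (D + 1) * (1 + h) - D ^ 2 - D * (D + 1) * (h + h ^ 2) ≤ 0 := by
      have h7 : 0 ≤ D * (D + 1) * (h + h ^ 2) := by positivity
      have h8 : (D + 1) * (1 + h) ≤ D ^ 2 := by nlinarith
      linarith
    have h7 : 0 ≤ h / D := by positivity
    have := mul_nonpos_of_nonneg_of_nonpos h7 h6
    linarith
  have h3 : (2 * (k : ℝ) + 1) ^ k * Sk ≤ A * Real.exp (1 + h) * Sk :=
    mul_le_mul_of_nonneg_right h1 hS0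
  have h4 : (Real.exp (1 + h) - 1) * Sk ≤ N := by
    have h5 : (Real.exp (1 + h) - 1) * Sk ≤ (Real.exp (1 + h) - 1) * (N * (1 / D - h)) :=
      mul_le_mul_of_nonneg_left h2 (by linarith)
    have h6 : (Real.exp (1 + h) - 1) * (N * (1 / D - h)) =
        N * ((1 / D - h) * (Real.exp (1 + h) - 1)) := by ring
    have h7 := mul_le_mul_of_nonneg_left hprod hN0.le
    linarith
  have h5 := mul_le_mul_of_nonneg_left h4 hA0.le
  nlinarith

end Pool.Agent.Q25.MH_PKB
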