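import Mathlib
import Pool.Agent.Q256.UG.Stm

set_option autoImplicit false

/-!
# Job CZG of project UG
-/

namespace Pool.Agent.Q25.UGC

open Finset MvPolynomial Pool.Agent.Q256.UG
open Pool.Agent.Q256.UP (PBox)
open Pool.Agent.Q256.UI (ev tc Q kap rho)

/-- a set all of whose finite subsets are small is finite -/
theorem small_set {α : Type} (S : Set α) (M : ℝ) (hM : 0 ≤ M)
    (h : ∀ F : Finset α, (↑F : Set α) ⊆ S → (#F : ℝ) ≤ M) :
    S.Finite ∧ (S.ncard : ℝ) ≤ M := by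
  have hfin : S.Finite := by
    by_contra hinf
    obtain ⟨F, hF, hc⟩ := Set.Infinite.exists_subset_card_eq hinf (⌊M⌋₊ + 1)
    have h1 := h F hF
    rw [hc] at h1
    push_cast at h1
    have := Nat.lt_floor_add_one M
    linarith
  refine ⟨hfin, ?_⟩
  rw [Set.ncard_eq_toFinset_card S hfin]
  exact h _ (by simp)

theorem czg : S_COG → S_RAT → S_LIG → Pool.Agent.Q256.UI.S_WND → S_CZG := by
  intro hcog hrat hlig hwnd d c A hd hA
  obtain ⟨c0, C0, hc0, hC0, hcog⟩ := hcog d c A (by omega) hA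
  obtain ⟨C1, hC1, hrat⟩ := hrat d c A (by omega) hA
  obtain ⟨C2, hC2, hlig⟩ := hlig d (by omega)
  have hA0 : 0 < A := by linarith
  obtain ⟨c1, hc1, hc1a, hc1b⟩ : ∃ c1 : ℝ, 0 < c1 ∧ c1 ≤ c0 ∧ c1 * A ≤ 1 := by
    refine ⟨min c0 (1 / A), lt_min hc0 (by positivity), min_le_left _ _, ?_⟩
    calc min c0 (1 / A) * A ≤ 1 / A * A := mul_le_mul_of_nonneg_right (min_le_right _ _) hA0.le
      _ = 1 := by field_simp
  refine ⟨max (max C0 C1) (2 * C2 * A / c1), le_max_of_le_left (le_max_of_le_left hC0), ?_⟩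
  intro H T θ F hH hT hG hRS hRD
  have hHr : (1 : ℝ) ≤ H := by exact_mod_cast hH
  have hH0 : (0 : ℝ) < H := by linarith
  have hH5 : (1 : ℝ) ≤ (H : ℝ) ^ 5 := one_le_pow₀ hHr
  have hH25 : (H : ℝ) ^ 2 ≤ (H : ℝ) ^ 5 := pow_le_pow_right₀ hHr (by norm_num)
  have hT0' : C0 * (H : ℝ) ^ 5 ≤ T :=
    (mul_le_mul_of_nonneg_right ((le_max_left _ _).trans (le_max_left _ _)) (by positivity)).trans hT
  have hT1' : C1 * (H : ℝ) ^ 5 ≤ T :=
    (mul_le_mul_of_nonneg_right ((le_max_right _ _).trans (le_max_left _ _)) (by positivity)).trans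
      hT
  have hT2' : C0 * (H : ℝ) ^ 2 ≤ T :=
    (mul_le_mul_of_nonneg_left hH25 (by linarith)).trans hT0'
  have hT1 : 1 ≤ T := by nlinarith
  have hT0 : 0 < T := by linarith
  have hAH : 1 ≤ A * H := by nlinarith
  have hAH0 : 0 ≤ A * H := by linarith
  have hW3 : A * H ≤ A * H * T ^ (d - 3) := le_mul_of_one_le_right hAH0 (one_le_pow₀ hT1)
  have hW4 : A * H ≤ A * H * T ^ (d - 4) := le_mul_of_one_le_right hAH0 (one_le_pow₀ hT1)
  obtain ⟨g, hg⟩ : ∃ g : ℝ, g = |tc F θ d 1| := ⟨_, rfl⟩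
  have hg16 : 1 / 16 ≤ g := by rw [hg]; exact hG.th.one
  have hg0 : 0 < g := by linarith
  have hgA : g ≤ A * H := by
    have h1 := hG.k1
    rw [← hg, le_div_iff₀ hg0, one_mul] at h1
    exact h1
  rw [← hg]
  obtain ⟨L, hL⟩ : ∃ L : ℝ, L = c1 * T * g / H := ⟨_, rfl⟩
  have hL0 : 0 < L := by rw [hL]; positivity
  have hLH : L * H = c1 * T * g := by rw [hL]; field_simp
  have hLT : L ≤ T := by
    rw [hL, div_le_iff₀ hH0]
    calc c1 * T * g ≤ c1 * T * (A * H) := mul_le_mul_of_nonneg_left hgA (by positivity)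
      _ = (c1 * A) * (T * H) := by ring
      _ ≤ 1 * (T * H) := mul_le_mul_of_nonneg_right hc1b (by positivity)
      _ = T * H := one_mul _
  have hLc : L * H ≤ c0 * T * |tc F θ d 1| := by
    rw [hLH, ← hg]
    gcongr
  set M : ℝ := C2 * (A * H) ^ ((1 : ℝ) / d) with hM
  have hM0 : 0 ≤ M := by positivity
  set S := Ap d F θ A H T (A * H) with hS
  have hdeg : F.totalDegree ≤ d := hG.box.1
  have hwin : ∀ X : ℝ, {p | p ∈ S ∧ X ≤ p.1 ∧ (p.1 : ℝ) ≤ X + L}.Finite ∧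
      ({p | p ∈ S ∧ X ≤ p.1 ∧ (p.1 : ℝ) ≤ X + L}.ncard : ℝ) ≤ M := by
    intro X
    apply small_set _ M hM0
    intro E hE
    apply hlig F hdeg (A * H) hAH E
    · intro p hp
      have h1 := (hE hp).1
      exact h1.2.2.2
    · intro p hp q hq r hr
      obtain ⟨hp1, hp2, hp3⟩ := hE hp
      obtain ⟨hq1, hq2, hq3⟩ := hE hq
      obtain ⟨hr1, hr2, hr3⟩ := hE hr
      apply hcog H T (A * H) L θ F hH hT2' hG hAH0 hW3 hL0.le hLc p hp1 q hq1 r hr1
      · rw [abs_le]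
        constructor <;> linarith
      · rw [abs_le]
        constructor <;> linarith
      · rw [abs_le]
        constructor <;> linarith
    · intro p hp q hq hpq h0
      obtain ⟨hp1, hp2, hp3⟩ := hE hp
      obtain ⟨hq1, hq2, hq3⟩ := hE hq
      rcases hrat H T (A * H) θ F hH hT1' hG hAH0 hW4 p hp1 q hq1 hpq h0 with h | h
      · exact hRS h
      · exact hRD h
  obtain ⟨hfin, hcard⟩ := hwnd S T L M hL0 hLT hM0 (fun p hp => ⟨hp.1, hp.2.1⟩) hwin
  refine ⟨hfin, hcard.trans ?_⟩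
  have h1 : T / L = H / g / c1 := by
    rw [hL]
    field_simp
  have h2 : (A * H) ^ ((1 : ℝ) / d) ≤ A * (H : ℝ) ^ ((1 : ℝ) / 7) := by
    rw [Real.mul_rpow (by linarith) hH0.le]
    have hdR : (7 : ℝ) ≤ d := by exact_mod_cast hd
    apply mul_le_mul _ _ (by positivity) (by linarith)
    · calc A ^ ((1 : ℝ) / d) ≤ A ^ (1 : ℝ) := by
            apply Real.rpow_le_rpow_of_exponent_le hA
            rw [div_le_iff₀ (by linarith)]
            linarith
        _ = A := Real.rpow_one A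
    · apply Real.rpow_le_rpow_of_exponent_le hHr
      exact one_div_le_one_div_of_le (by norm_num) hdR
  rw [h1]
  calc 2 * M * (H / g / c1) = 2 * C2 / c1 * (H / g) * ((A * H) ^ ((1 : ℝ) / d)) := by
        rw [hM]
        ring
    _ ≤ 2 * C2 / c1 * (H / g) * (A * (H : ℝ) ^ ((1 : ℝ) / 7)) := by gcongr
    _ = 2 * C2 * A / c1 * (H / g) * (H : ℝ) ^ ((1 : ℝ) / 7) := by ring
    _ ≤ max (max C0 C1) (2 * C2 * A / c1) * (H / g) * (H : ℝ) ^ ((1 : ℝ) / 7) := by
        gcongr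
        exact le_max_right _ _

end Pool.Agent.Q25.UGC
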