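import Mathlib
import Pool.Agent.Q256.UG.Stm
import Pool.Agent.Q124.UI.Base

set_option autoImplicit false

/-!
# Jobs GD1 (first differences) and GD4 (one point) of project UG
-/

namespace Pool.Agent.Q25.UGD

open Finset Pool.Agent.Q256.UI Pool.Agent.Q256.UG Pool.Agent.Q124.UI

/-- The size of the coefficients after rescaling. -/
theorem coefG {d : ℕ} {A K T : ℝ} {a : ℕ → ℕ → ℝ} (hA : 1 ≤ A) (hK : 1 ≤ K) (hT : K ≤ T)
    (hB : Bg d A K a) {m k j : ℕ} (hk : k ≤ d) (hj : j ≤ k) (hi : m ≤ d - 1 + j - k) (hd : 1 ≤ d)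
    (hm : 1 ≤ m) :
    |a k j * (A * K) ^ j / T ^ (d - 1 + j - k)| ≤ A ^ (d + 2) * K ^ 2 * (K / T) ^ m := by
  set i := d - 1 + j - k with hidef
  have hAK : 1 ≤ A * K := by nlinarith
  have hT0 : 0 < T := by linarith
  have hAK0 : 0 < A * K := by linarith
  have hji : j ≤ i + 1 := by omega
  have hid : i ≤ d := by omega
  have h1 : |a k j| * (A * K) ^ j ≤ (A * K) ^ (i + 2) := by
    have e1 := hB.all k j hk hj
    have e2 : (A * K) ^ j ≤ (A * K) ^ (i + 1) := pow_le_pow_right₀ hAK hji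
    calc |a k j| * (A * K) ^ j ≤ (A * K) * (A * K) ^ (i + 1) :=
          mul_le_mul e1 e2 (by positivity) (by positivity)
      _ = (A * K) ^ (i + 2) := by ring
  have h2 : (K / T) ^ i ≤ (K / T) ^ m := by
    apply pow_le_pow_of_le_one (by positivity)
    · rw [div_le_one hT0]; exact hT
    · exact hi
  rw [abs_div, abs_mul, abs_of_pos (pow_pos hAK0 j), abs_of_pos (pow_pos hT0 i)]
  have hA0 : 0 < A := by linarith
  have hK0 : 0 < K := by linarith
  calc |a k j| * (A * K) ^ j / T ^ i ≤ (A * K) ^ (i + 2) / T ^ i :=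
        div_le_div_of_nonneg_right h1 (by positivity)
    _ = A ^ (i + 2) * K ^ 2 * (K / T) ^ i := by rw [div_pow, mul_pow]; ring
    _ ≤ A ^ (d + 2) * K ^ 2 * (K / T) ^ m := by
        apply mul_le_mul _ h2 (by positivity) (by positivity)
        apply mul_le_mul_of_nonneg_right _ (by positivity)
        exact pow_le_pow_right₀ hA (by omega)

theorem S_sub {d : ℕ} {A K T : ℝ} {a : ℕ → ℕ → ℝ} (hA : 1 ≤ A) (hK : 1 ≤ K) (hT : K ≤ T)
    (hB : Bg d A K a) {m : ℕ} (hm : 1 ≤ m) (hd : 1 ≤ d) {x y u v : ℝ} (hx : T ≤ x) (hy : T ≤ y)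
    (hu : |u| ≤ A * K) (hv : |v| ≤ A * K) :
    |S d a m x u - S d a m y v| ≤ ((d : ℝ) + 1) ^ 2 *
      (A ^ (d + 2) * K ^ 2 * (K / T) ^ m * (d * (|u - v| / (A * K)) + d * (|x - y| / T))) := by
  have hAK : 1 ≤ A * K := by nlinarith
  have hT0 : 0 < T := by linarith
  have hAK0 : 0 < A * K := by linarith
  have hA0 : 0 < A := by linarith
  have hK0 : 0 < K := by linarith
  unfold S
  rw [← Finset.sum_sub_distrib]
  have e : ∀ k ∈ range (d + 1),
      ((∑ j ∈ range (k + 1), if m ≤ d - 1 + j - k then a k j * u ^ j * (1 / x) ^ (d - 1 + j - k)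
        else 0) - ∑ j ∈ range (k + 1), if m ≤ d - 1 + j - k then
          a k j * v ^ j * (1 / y) ^ (d - 1 + j - k) else 0) =
      ∑ j ∈ range (k + 1), ((if m ≤ d - 1 + j - k then a k j * u ^ j * (1 / x) ^ (d - 1 + j - k)
        else 0) - (if m ≤ d - 1 + j - k then
          a k j * v ^ j * (1 / y) ^ (d - 1 + j - k) else 0)) := fun k _ => by
    rw [Finset.sum_sub_distrib]
  rw [Finset.sum_congr rfl e]
  apply dsum (by positivity)
  intro k hk j hj
  split_ifs with hi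
  · rw [term_eq hAK0.ne' hT0.ne', term_eq hAK0.ne' hT0.ne', ← mul_sub, abs_mul]
    apply mul_le_mul (coefG hA hK hT hB hk hj hi hd hm) _ (abs_nonneg _) (by positivity)
    have h1 := abs_mul_sub_le (p := (u / (A * K)) ^ j) (q := (T / x) ^ (d - 1 + j - k))
      (r := (v / (A * K)) ^ j) (s := (T / y) ^ (d - 1 + j - k))
      (abs_pow_le' (scl_le hAK0 hu) j) (abs_pow_le' (inv_le hT0 hy) _)
    have h2 := abs_pow_sub_le (scl_le hAK0 hu) (scl_le hAK0 hv) j
    have h3 := abs_pow_sub_le (inv_le hT0 hx) (inv_le hT0 hy) (d - 1 + j - k)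
    have h4 : |u / (A * K) - v / (A * K)| = |u - v| / (A * K) := by
      rw [← sub_div, abs_div, abs_of_pos hAK0]
    rw [h4] at h2
    have h5 := inv_sub hT0 hx hy
    have h6 : (j : ℝ) * (|u - v| / (A * K)) ≤ d * (|u - v| / (A * K)) := by
      apply mul_le_mul_of_nonneg_right _ (by positivity)
      exact_mod_cast hj.trans hk
    have h7 : ((d - 1 + j - k : ℕ) : ℝ) * |T / x - T / y| ≤ d * (|x - y| / T) := by
      apply mul_le_mul _ h5 (abs_nonneg _) (by positivity)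
      exact_mod_cast (by omega : d - 1 + j - k ≤ d)
    linarith
  · simp only [sub_zero, abs_zero]
    positivity

theorem S_bd {d : ℕ} {A K T : ℝ} {a : ℕ → ℕ → ℝ} (hA : 1 ≤ A) (hK : 1 ≤ K) (hT : K ≤ T)
    (hB : Bg d A K a) {m : ℕ} (hm : 1 ≤ m) (hd : 1 ≤ d) {x u : ℝ} (hx : T ≤ x)
    (hu : |u| ≤ A * K) :
    |S d a m x u| ≤ ((d : ℝ) + 1) ^ 2 * (A ^ (d + 2) * K ^ 2 * (K / T) ^ m) := by
  have hAK : 1 ≤ A * K := by nlinarith
  have hT0 : 0 < T := by linarith
  have hAK0 : 0 < A * K := by linarith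
  have hA0 : 0 < A := by linarith
  have hK0 : 0 < K := by linarith
  unfold S
  apply dsum (by positivity)
  intro k hk j hj
  split_ifs with hi
  · rw [term_eq hAK0.ne' hT0.ne', abs_mul]
    calc |a k j * (A * K) ^ j / T ^ (d - 1 + j - k)| *
        |(u / (A * K)) ^ j * (T / x) ^ (d - 1 + j - k)| ≤
          (A ^ (d + 2) * K ^ 2 * (K / T) ^ m) * 1 := by
          apply mul_le_mul (coefG hA hK hT hB hk hj hi hd hm) _ (abs_nonneg _) (by positivity)
          rw [abs_mul]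
          exact mul_le_one₀ (abs_pow_le' (scl_le hAK0 hu) j) (abs_nonneg _)
            (abs_pow_le' (inv_le hT0 hx) _)
      _ = _ := mul_one _
  · simp only [abs_zero]
    positivity

theorem eps_le {d : ℕ} {a : ℕ → ℕ → ℝ} {T W x u : ℝ} (hT : 0 < T) (hx : T ≤ x) (hW : 0 ≤ W)
    (h : |Q d a x u| ≤ W) : |Q d a x u / x ^ (d - 1)| ≤ W / T ^ (d - 1) := by
  have hx0 : 0 < x := by linarith
  rw [abs_div, abs_of_pos (pow_pos hx0 _)]
  apply div_le_div₀ hW h (pow_pos hT _)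
  exact pow_le_pow_left₀ hT.le hx _

theorem gd1 : S_GD1 := by
  intro d A hd hA
  have hd0 : (5 : ℝ) ≤ d := by exact_mod_cast hd
  obtain ⟨n, hn⟩ : ∃ n : ℝ, n = ((d : ℝ) + 1) ^ 2 := ⟨_, rfl⟩
  have hn1 : 1 ≤ n := by rw [hn]; nlinarith
  obtain ⟨D, hD⟩ : ∃ D : ℝ, D = A ^ (d + 2) := ⟨_, rfl⟩
  have hD1 : 1 ≤ D := by rw [hD]; exact one_le_pow₀ hA
  have hnd : 1 ≤ n * d := by nlinarith
  have hN : 1 ≤ n * d * D := by nlinarith
  refine ⟨4 * (n * d * D), by linarith, ?_⟩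
  intro K T W a hK hT hB hW x y u v hx hx2 hy hy2 hu hv hQ1 hQ2
  have hKK : K ≤ K ^ 2 := by nlinarith
  have hKT : K ≤ T := by
    refine le_trans ?_ hT
    nlinarith
  have hAK : 1 ≤ A * K := by nlinarith
  have hT0 : 0 < T := by linarith
  have hAK0 : 0 < A * K := by linarith
  have hK0 : 0 < K := by linarith
  have hA0 : 0 < A := by linarith
  have e1 := Q_eq (by omega : 2 ≤ d) hB.zero (by linarith : x ≠ 0) u
  have e2 := Q_eq (by omega : 2 ≤ d) hB.zero (by linarith : y ≠ 0) v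
  have b1 := eps_le hT0 hx hW hQ1
  have b2 := eps_le hT0 hy hW hQ2
  have b3 := S_sub hA hK hKT hB (le_refl 1) (by omega) hx hy hu hv
  rw [← hn, ← hD] at b3
  have h1 : a d 1 * (u - v) = (Q d a x u / x ^ (d - 1)) - (Q d a y v / y ^ (d - 1)) -
      (S d a 1 x u - S d a 1 y v) := by rw [e1, e2]; ring
  have h2 : |u - v| ≤ W / T ^ (d - 1) + W / T ^ (d - 1) + n *
      (D * K ^ 2 * (K / T) ^ 1 * (d * (|u - v| / (A * K)) + d * (|x - y| / T))) := by
    have h3 : |u - v| = |a d 1 * (u - v)| := by rw [abs_mul, hB.one, one_mul]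
    rw [h3, h1]
    refine (abs_sub _ _).trans ?_
    rw [← h1, ← h3]
    refine add_le_add ((abs_sub _ _).trans (add_le_add b1 b2)) b3
  have hw0 : 0 ≤ W / T ^ (d - 1) := by positivity
  generalize W / T ^ (d - 1) = w at b1 b2 h2 hw0 ⊢
  have e3 : n * (D * K ^ 2 * (K / T) ^ 1 * (d * (|u - v| / (A * K)) + d * (|x - y| / T))) =
      (n * d * D) * (K ^ 2 / T) * (|u - v| / A) + (n * d * D) * (K ^ 3 / T ^ 2 * |x - y|) := by
    field_simp
  rw [e3] at h2
  obtain ⟨N, hNdef⟩ : ∃ N : ℝ, N = n * d * D := ⟨_, rfl⟩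
  rw [← hNdef] at h2 hT hN ⊢
  have h4 : N * (K ^ 2 / T) * (|u - v| / A) ≤ 1 / 2 * |u - v| := by
    have h5 : N * (K ^ 2 / T) ≤ 1 / 2 := by
      rw [← mul_div_assoc, div_le_iff₀ hT0]
      nlinarith
    have h6 : |u - v| / A ≤ |u - v| := div_le_self (abs_nonneg _) hA
    exact mul_le_mul h5 h6 (by positivity) (by norm_num)
  have hz : 0 ≤ K ^ 3 / T ^ 2 * |x - y| := by positivity
  generalize K ^ 3 / T ^ 2 * |x - y| = zz at h2 hz ⊢
  have p1 : 0 ≤ N * zz := by positivity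
  have p2 : w ≤ N * w := le_mul_of_one_le_left hw0 hN
  have e7 : 4 * N * (zz + w) = 4 * (N * zz) + 4 * (N * w) := by ring
  rw [e7]
  linarith

theorem gd4 : S_GD4 := by
  intro d A hd hA
  have hd0 : (5 : ℝ) ≤ d := by exact_mod_cast hd
  obtain ⟨n, hn⟩ : ∃ n : ℝ, n = ((d : ℝ) + 1) ^ 2 := ⟨_, rfl⟩
  have hn1 : 1 ≤ n := by rw [hn]; nlinarith
  obtain ⟨D, hD⟩ : ∃ D : ℝ, D = A ^ (d + 2) := ⟨_, rfl⟩
  have hD1 : 1 ≤ D := by rw [hD]; exact one_le_pow₀ hA
  have hN : 1 ≤ n * D := by nlinarith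
  refine ⟨2 * (n * D), by linarith, ?_⟩
  intro K T W a hK hKT hB hW x u hx hx2 hu hQ1
  have hAK : 1 ≤ A * K := by nlinarith
  have hT0 : 0 < T := by linarith
  have hx0 : 0 < x := by linarith
  have hAK0 : 0 < A * K := by linarith
  have hK0 : 0 < K := by linarith
  have hA0 : 0 < A := by linarith
  have hne : a d 1 ≠ 0 := by
    intro h
    have := hB.one
    rw [h] at this
    norm_num at this
  have e1 := Q_eq (by omega : 2 ≤ d) hB.zero hx0.ne' u
  have b1 := eps_le hT0 hx hW hQ1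
  have b3 := S_bd hA hK hKT hB (le_refl 1) (by omega) hx hu
  have b4 := S_bd hA hK hKT hB (le_of_lt one_lt_two) (by omega) hx hu
  rw [← hn, ← hD] at b3 b4
  have ek : a d 1 * (u - kap d a) = a d 1 * u + a (d - 1) 0 := by
    unfold kap
    field_simp
    ring
  have hw0 : 0 ≤ W / T ^ (d - 1) := by positivity
  obtain ⟨N, hNdef⟩ : ∃ N : ℝ, N = n * D := ⟨_, rfl⟩
  constructor
  · have h1 : a d 1 * (u - kap d a) = (Q d a x u / x ^ (d - 1)) - S d a 1 x u := by
      rw [e1, ek]; ring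
    have h3 : |u - kap d a| = |a d 1 * (u - kap d a)| := by rw [abs_mul, hB.one, one_mul]
    rw [h3, h1]
    have h2 : |Q d a x u / x ^ (d - 1) - S d a 1 x u| ≤
        W / T ^ (d - 1) + n * (D * K ^ 2 * (K / T) ^ 1) :=
      (abs_sub _ _).trans (add_le_add b1 b3)
    have e2 : n * (D * K ^ 2 * (K / T) ^ 1) = (n * D) * (K ^ 3 / T) := by ring
    rw [e2] at h2
    have hz : 0 ≤ K ^ 3 / T := by positivity
    rw [← hNdef] at h2 hN ⊢
    generalize W / T ^ (d - 1) = w at b1 h2 hw0 ⊢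
    generalize K ^ 3 / T = zz at h2 hz ⊢
    have p1 : 0 ≤ N * zz := by positivity
    have p2 : w ≤ N * w := le_mul_of_one_le_left hw0 hN
    have e7 : 2 * N * (zz + w) = 2 * (N * zz) + 2 * (N * w) := by ring
    rw [e7]
    linarith
  · intro huk
    have h0 : a d 1 * u + a (d - 1) 0 = 0 := by
      rw [← ek, huk, sub_self, mul_zero]
    rw [h0, zero_add, S_one (by omega : 3 ≤ d)] at e1
    have e2 : a d 2 * u ^ 2 + a (d - 1) 1 * u + a (d - 2) 0 = rho d a := by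
      unfold rho
      rw [← huk]
    rw [e2] at e1
    have h1 : rho d a = x * (Q d a x u / x ^ (d - 1) - S d a 2 x u) := by
      rw [e1]
      field_simp
      ring
    have h2 : |Q d a x u / x ^ (d - 1) - S d a 2 x u| ≤
        W / T ^ (d - 1) + n * (D * K ^ 2 * (K / T) ^ 2) :=
      (abs_sub _ _).trans (add_le_add b1 b4)
    rw [h1, abs_mul, abs_of_pos hx0]
    have e3 : n * (D * K ^ 2 * (K / T) ^ 2) = (n * D) * (K ^ 4 / T ^ 2) := by ring
    rw [e3, ← hNdef] at h2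
    rw [← hNdef] at hN ⊢
    have h3 : x * |Q d a x u / x ^ (d - 1) - S d a 2 x u| ≤
        (2 * T) * (W / T ^ (d - 1) + N * (K ^ 4 / T ^ 2)) :=
      mul_le_mul hx2 h2 (abs_nonneg _) (by positivity)
    have e4 : (2 * T) * (W / T ^ (d - 1) + N * (K ^ 4 / T ^ 2)) =
        2 * (W * T / T ^ (d - 1)) + 2 * N * (K ^ 4 / T) := by
      field_simp
    rw [e4] at h3
    have hz : 0 ≤ K ^ 4 / T := by positivity
    have hw1 : 0 ≤ W * T / T ^ (d - 1) := by positivity
    generalize W * T / T ^ (d - 1) = w at h3 hw1 ⊢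
    generalize K ^ 4 / T = zz at h3 hz ⊢
    have p2 : w ≤ N * w := le_mul_of_one_le_left hw1 hN
    have e7 : 2 * N * (zz + w) = 2 * N * zz + 2 * (N * w) := by ring
    rw [e7]
    linarith

end Pool.Agent.Q25.UGD
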