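import Mathlib
import Pool.Agent.Q256.UG.Stm

set_option autoImplicit false

/-!
# Job INV of project UG
-/

namespace Pool.Agent.Q25.UGI

open Finset MvPolynomial Pool.Agent.Q256.UG
open Pool.Agent.Q256.UP (PBox)
open Pool.Agent.Q256.UI (ev tc Q kap rho)

theorem tc_add (F G : MvPolynomial (Fin 2) ℤ) (θ : ℝ) (k j : ℕ) :
    tc (F + G) θ k j = tc F θ k j + tc G θ k j := by
  unfold tc
  rw [← sum_add_distrib]
  refine sum_congr rfl fun i _ => ?_
  rw [MvPolynomial.coeff_add]
  push_cast
  ring

theorem co_zero (G : MvPolynomial (Fin 2) ℤ) (k i : ℕ) (h : G.totalDegree < k) (hi : i ≤ k) :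
    MvPolynomial.coeff (Finsupp.single 0 (k - i) + Finsupp.single 1 i) G = 0 := by
  apply MvPolynomial.coeff_eq_zero_of_totalDegree_lt
  rw [← Finsupp.degree_apply, map_add, Finsupp.degree_single, Finsupp.degree_single]
  omega

theorem tc_zero (G : MvPolynomial (Fin 2) ℤ) (θ : ℝ) (k j : ℕ) (h : G.totalDegree < k) :
    tc G θ k j = 0 := by
  unfold tc
  refine sum_eq_zero fun i hi => ?_
  have hi' : i ≤ k := by
    rw [mem_range] at hi
    omega
  rw [co_zero G k i h hi']
  simp

theorem ld_add (d : ℕ) (F G : MvPolynomial (Fin 2) ℤ) (b a : ℤ) (h : G.totalDegree < d) :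
    ld d (F + G) b a = ld d F b a := by
  unfold ld
  refine sum_congr rfl fun i hi => ?_
  have hi' : i ≤ d := by
    rw [mem_range] at hi
    omega
  rw [MvPolynomial.coeff_add, co_zero G d i h hi', add_zero]

theorem tc_mono (θ : ℝ) (k : ℕ) (t : ℤ) :
    tc (monomial (Finsupp.single 0 k) t) θ k 0 = t := by
  unfold tc
  rw [sum_eq_single 0]
  · simp
  · intro i _ hi0
    have : MvPolynomial.coeff (Finsupp.single 0 (k - i) + Finsupp.single 1 i)
        (monomial (Finsupp.single (0 : Fin 2) k) t) = 0 := by
      rw [MvPolynomial.coeff_monomial, if_neg]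
      intro h
      have h1 := DFunLike.congr_fun h 1
      simp at h1
      exact hi0 h1.symm
    rw [this]
    simp
  · intro h
    simp at h

theorem deg_mono (k : ℕ) (t : ℤ) :
    (monomial (Finsupp.single (0 : Fin 2) k) t : MvPolynomial (Fin 2) ℤ).totalDegree ≤ k := by
  refine (MvPolynomial.totalDegree_monomial_le _ _).trans ?_
  simp

theorem inv : S_INV := by
  refine ⟨?_, ?_⟩
  · intro d F G hd hG
    refine ⟨?_, ?_, ?_⟩
    · intro θ j
      rw [tc_add, tc_zero G θ d j (by omega), add_zero]
    · intro b a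
      exact ld_add d F G b a (by omega)
    · intro θ
      have a1 := tc_zero G θ d 2 (by omega)
      have a2 := tc_zero G θ d 1 (by omega)
      have a3 := tc_zero G θ (d - 1) 0 (by omega)
      have a4 := tc_zero G θ (d - 1) 1 (by omega)
      have a5 := tc_zero G θ (d - 2) 0 (by omega)
      unfold rho kap
      simp only [tc_add]
      rw [a1, a2, a3, a4, a5]
      simp
  · intro d F t hd
    have h0 := deg_mono (d - 2) t
    refine ⟨?_, ?_, ?_⟩
    · intro θ j
      rw [tc_add, tc_zero (monomial (Finsupp.single 0 (d - 2)) t) θ d j (by omega), add_zero]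
    · intro b a
      exact ld_add d F _ b a (by omega)
    · intro θ
      have a1 := tc_zero (monomial (Finsupp.single 0 (d - 2)) t) θ d 2 (by omega)
      have a2 := tc_zero (monomial (Finsupp.single 0 (d - 2)) t) θ d 1 (by omega)
      have a3 := tc_zero (monomial (Finsupp.single 0 (d - 2)) t) θ (d - 1) 0 (by omega)
      have a4 := tc_zero (monomial (Finsupp.single 0 (d - 2)) t) θ (d - 1) 1 (by omega)
      unfold rho kap
      simp only [tc_add]
      rw [a1, a2, a3, a4, tc_mono]
      ring

end Pool.Agent.Q25.UGI
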