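import Mathlib
import Pool.Agent.Q256.UG.Stm

set_option autoImplicit false

/-!
# Job SYG of project UG
-/

namespace Pool.Agent.Q25.UGS

open Finset MvPolynomial Pool.Agent.Q256.UG
open Pool.Agent.Q256.UP (PBox finite_pbox)

theorem mem_pbox {d B : ℕ} {F : MvPolynomial (Fin 2) ℤ} :
    F ∈ PBox d B ↔ (∀ α, F.coeff α ≠ 0 → α.degree ≤ d) ∧ ∀ α, |F.coeff α| ≤ B := by
  constructor
  · rintro ⟨h1, h2⟩
    refine ⟨fun α hα => ?_, h2⟩
    have h3 := le_totalDegree (mem_support_iff.2 hα)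
    have h4 : (α.sum fun _ e => e) = α.degree := rfl
    omega
  · rintro ⟨h1, h2⟩
    refine ⟨?_, h2⟩
    refine Finset.sup_le fun α hα => ?_
    exact h1 α (mem_support_iff.1 hα)

/-- `(-1)^d F(-x, -y)`. -/
noncomputable def tw (d : ℕ) (F : MvPolynomial (Fin 2) ℤ) : MvPolynomial (Fin 2) ℤ :=
  ∑ α ∈ F.support, monomial α ((-1) ^ (d + α.degree) * F.coeff α)

theorem coeff_tw (d : ℕ) (F : MvPolynomial (Fin 2) ℤ) (α : Fin 2 →₀ ℕ) :
    (tw d F).coeff α = (-1) ^ (d + α.degree) * F.coeff α := by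
  unfold tw
  rw [coeff_sum]
  simp only [coeff_monomial]
  rw [Finset.sum_ite_eq']
  split_ifs with h
  · rfl
  · rw [notMem_support_iff.1 h, mul_zero]

theorem eval_tw (d : ℕ) (F : MvPolynomial (Fin 2) ℤ) (P : Fin 2 → ℤ) :
    eval P (tw d F) = (-1) ^ d * eval (fun i => -P i) F := by
  rw [eval_eq' (fun i => -P i) F]
  unfold tw
  rw [map_sum, Finset.mul_sum]
  refine Finset.sum_congr rfl fun α _ => ?_
  rw [eval_monomial, Finsupp.prod_fintype _ _ (fun i => pow_zero _)]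
  have h : ∀ i, (-P i) ^ α i = (-1) ^ α i * P i ^ α i := fun i => by rw [neg_pow]
  rw [Finset.prod_congr rfl (fun i _ => h i), Finset.prod_mul_distrib, Finset.prod_pow_eq_pow_sum]
  have h2 : ∑ i, α i = α.degree := by
    rw [Finsupp.degree_eq_sum]
  rw [h2, pow_add]
  ring

theorem tw_inj (d : ℕ) : Function.Injective (tw d) := by
  intro F G h
  ext α
  have h1 := congrArg (coeff α) h
  rw [coeff_tw, coeff_tw] at h1
  exact mul_left_cancel₀ (pow_ne_zero _ (by norm_num)) h1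

theorem tw_pbox {d H : ℕ} {F : MvPolynomial (Fin 2) ℤ} (hF : F ∈ PBox d H) :
    tw d F ∈ PBox d H := by
  rw [mem_pbox] at hF ⊢
  refine ⟨fun α hα => ?_, fun α => ?_⟩
  · rw [coeff_tw] at hα
    exact hF.1 α (right_ne_zero_of_mul hα)
  · rw [coeff_tw, abs_mul, abs_pow, abs_neg, abs_one, one_pow, one_mul]
    exact hF.2 α

/-- The exchange of the variables. -/
noncomputable def sw (F : MvPolynomial (Fin 2) ℤ) : MvPolynomial (Fin 2) ℤ :=
  rename (Equiv.swap (0 : Fin 2) 1) F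

theorem sw_inj : Function.Injective sw := rename_injective _ (Equiv.injective _)

theorem eval_sw (F : MvPolynomial (Fin 2) ℤ) (x y : ℤ) :
    eval ![y, x] (sw F) = eval ![x, y] F := by
  unfold sw
  rw [eval_rename]
  have h : (![y, x] : Fin 2 → ℤ) ∘ (Equiv.swap (0 : Fin 2) 1) = ![x, y] := by
    funext i
    fin_cases i
    · show (![y, x] : Fin 2 → ℤ) (Equiv.swap (0 : Fin 2) 1 0) = x
      rw [Equiv.swap_apply_left]; rfl
    · show (![y, x] : Fin 2 → ℤ) (Equiv.swap (0 : Fin 2) 1 1) = y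
      rw [Equiv.swap_apply_right]; rfl
  rw [h]

theorem sw_pbox {d H : ℕ} {G : MvPolynomial (Fin 2) ℤ} (hG : G ∈ PBox d H) : sw G ∈ PBox d H := by
  refine ⟨(totalDegree_rename_le _ _).trans hG.1, fun α => ?_⟩
  have h : α = Finsupp.mapDomain (Equiv.swap (0 : Fin 2) 1)
      (Finsupp.mapDomain (Equiv.swap (0 : Fin 2) 1) α) := by
    rw [← Finsupp.mapDomain_comp]
    have h2 : (Equiv.swap (0 : Fin 2) 1 : Fin 2 → Fin 2) ∘ (Equiv.swap (0 : Fin 2) 1) = id := by
      funext i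
      exact (Equiv.swap (0 : Fin 2) 1).symm_apply_apply i
    rw [h2, Finsupp.mapDomain_id]
  unfold sw
  rw [h, coeff_rename_mapDomain _ (Equiv.injective _)]
  exact hG.2 _

theorem zg_fin (d H a b : ℕ) : (ZG d H a b).Finite :=
  (finite_pbox d H).subset fun _ h => h.1

theorem syg : S_SYG := by
  intro d H a b
  set S : Set (MvPolynomial (Fin 2) ℤ) := {F | F ∈ PBox d H ∧ ∃ x y : ℤ,
    (a : ℤ) ≤ max |x| |y| ∧ max |x| |y| ≤ b ∧ eval ![x, y] F = 0} with hS
  rw [Nat.card_coe_set_eq, Nat.card_coe_set_eq]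
  set Z := ZG d H a b with hZ
  have hf : (PBox d H).Finite := finite_pbox d H
  have hz : Z.Finite := zg_fin _ _ _ _
  set S1 : Set (MvPolynomial (Fin 2) ℤ) := {F | F ∈ PBox d H ∧ tw d F ∈ Z} with hS1
  set S2 : Set (MvPolynomial (Fin 2) ℤ) := {F | F ∈ PBox d H ∧ sw F ∈ Z} with hS2
  set S3 : Set (MvPolynomial (Fin 2) ℤ) := {F | F ∈ PBox d H ∧ tw d (sw F) ∈ Z} with hS3
  have c1 : S1.ncard ≤ Z.ncard :=
    Set.ncard_le_ncard_of_injOn (tw d) (fun F hF => hF.2) (tw_inj d).injOn hz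
  have c2 : S2.ncard ≤ Z.ncard :=
    Set.ncard_le_ncard_of_injOn sw (fun F hF => hF.2) sw_inj.injOn hz
  have c3 : S3.ncard ≤ Z.ncard :=
    Set.ncard_le_ncard_of_injOn (fun F => tw d (sw F)) (fun F hF => hF.2)
      ((tw_inj d).comp sw_inj).injOn hz
  have hneg : ∀ x y : ℤ, (fun i => -(![-x, -y] : Fin 2 → ℤ) i) = ![x, y] := by
    intro x y
    funext i
    fin_cases i
    · show - -x = x
      exact neg_neg x
    · show - -y = y
      exact neg_neg y
  have hsub : S ⊆ ((Z ∪ S1) ∪ (S2 ∪ S3)) := by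
    rintro F ⟨hF, x, y, h1, h2, h3⟩
    rcases le_total |x| |y| with h | h
    · rw [max_eq_right h] at h1 h2
      right
      rcases le_total 0 y with hy | hy
      · left
        rw [abs_of_nonneg hy] at h1 h2 h
        exact ⟨hF, sw_pbox hF, y, x, h1, h2, h, by rw [eval_sw]; exact h3⟩
      · right
        rw [abs_of_nonpos hy] at h1 h2 h
        refine ⟨hF, tw_pbox (sw_pbox hF), -y, -x, h1, h2, by rw [abs_neg]; exact h, ?_⟩
        rw [eval_tw, hneg, eval_sw, h3, mul_zero]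
    · rw [max_eq_left h] at h1 h2
      left
      rcases le_total 0 x with hx | hx
      · left
        rw [abs_of_nonneg hx] at h1 h2 h
        exact ⟨hF, x, y, h1, h2, h, h3⟩
      · right
        rw [abs_of_nonpos hx] at h1 h2 h
        refine ⟨hF, tw_pbox hF, -x, -y, h1, h2, by rw [abs_neg]; exact h, ?_⟩
        rw [eval_tw, hneg, h3, mul_zero]
  have hfin : ((Z ∪ S1) ∪ (S2 ∪ S3)).Finite :=
    (hz.union (hf.subset fun _ h => h.1)).union
      ((hf.subset fun _ h => h.1).union (hf.subset fun _ h => h.1))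
  have e1 := Set.ncard_le_ncard hsub hfin
  have e2 := Set.ncard_union_le (Z ∪ S1) (S2 ∪ S3)
  have e3 := Set.ncard_union_le Z S1
  have e4 := Set.ncard_union_le S2 S3
  omega

end Pool.Agent.Q25.UGS
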